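import Mathlib
import Pool.Agent.R931.ZM.Defs

/-!
# Definitions
-/

set_option autoImplicit false

namespace Pool.Agent.R931.PD

open Module Pool.Agent.Y114.RM Pool.Agent.R931.GD Pool.Agent.R931.ZM

/-- The group `H` of permutations is contained in `A`, and it contains conjugates (in `A`) of all elements
of `T`. -/
def ConjIn {N : ℕ} (A : Subgroup (Equiv.Perm (Fin N))) (T : Set (Equiv.Perm (Fin N)))
    (H : Subgroup (Equiv.Perm (Fin N))) : Prop :=
  H ≤ A ∧ ∀ a ∈ T, ∃ x ∈ A, x⁻¹ * a * x ∈ H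

/-- The number of orbits. -/
noncomputable def orbitCount {I : Type} (H : Subgroup (Equiv.Perm I)) : ℕ :=
  Nat.card (MulAction.orbitRel.Quotient H I)

/-- The dimension of the algebra of the endomorphisms which commute with `𝔤`. -/
noncomputable def commutantDim {N ℓ : ℕ} [Fact ℓ.Prime] (𝔤 : End1 N ℓ) : ℕ :=
  centralizerDim {X : End ℚ_[ℓ] (∀ _ : Unit, Fin N → ℚ_[ℓ]) |
    X ∈ (show Submodule ℚ_[ℓ] (End ℚ_[ℓ] (∀ _ : Unit, Fin N → ℚ_[ℓ])) from 𝔤)}

end Pool.Agent.R931.PD
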