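import Mathlib
import Pool.Agent.R931.PD.Pencil
import Pool.Agent.R931.PD.Defs
import Pool.Agent.R931.ZM.Semi
import Pool.Agent.R931.ZM.Endo

/-!
# The group of the labels of the invariant subspaces
-/

set_option autoImplicit false
set_option linter.unusedSectionVars false

namespace Pool.Agent.R931.PD

open Function Polynomial Module NumberField IsDedekindDomain Pool.Agent.TH118.SG
  Pool.Agent.Y114.RM Pool.Agent.Y114.MU Pool.Agent.Y114.TF Pool.Agent.Y114.GF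
  Pool.Agent.H204R3.GP Pool.Agent.R931.GD Pool.Agent.Y142.ZO Pool.Agent.Y142.ZI
  Pool.Agent.Y142.SS Pool.Agent.R931.BD Pool.Agent.R931.ZL Pool.Agent.R931.ZM
open Pool.Agent.Y142.ZD (DistPow dist_of_nice)
open Pool.Agent.Y142.ZS (NiceP nice_of_p)
open Pool.Agent.Y497.ZO (Mt Aj)
open Pool.Agent.Y936.SS (Om)

section

variable {K : Type} [Field K] [NumberField K] {Γ : Type} [Group Γ] [TopologicalSpace Γ]
  [IsTopologicalGroup Γ] [CompactSpace Γ] {s : Gal(AlgebraicClosure K/K) →* Γ} {N : ℕ} {wt : ℤ}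
  {c r : ℕ} {S : Set (HeightOneSpectrum (𝓞 K))} {P : HeightOneSpectrum (𝓞 K) → ℚ[X]}
  {ρ : ∀ (ℓ : ℕ) [Fact ℓ.Prime], Rep1 Γ N ℓ}

theorem compareU (h : SetupG K Γ s N wt c r S P ρ) (ℓ : ℕ) [Fact ℓ.Prime] {γ₀ γ₁ : Γ}
    {z₀ z₁ : Fin N → Om ℓ} {f₀ f₁ : ℚ_[ℓ][X]}
    (h₀ : LogAt (ρ ℓ) γ₀ z₀ f₀) (h₁ : LogAt (ρ ℓ) γ₁ z₁ f₁)
    (t₀ : IsTangent ℓ ((matRep (ρ ℓ)).comp s) (aeval (matRep (ρ ℓ) γ₀) f₀))
    (t₁ : IsTangent ℓ ((matRep (ρ ℓ)).comp s) (aeval (matRep (ρ ℓ) γ₁) f₁))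
    (hr₀ : RankR r (relations z₀)) (hr₁ : RankR r (relations z₁)) :
    ∃ π : Equiv.Perm (Fin N), (∀ n, n ∈ relations z₁ ↔ (fun i => n (π i)) ∈ relations z₀) ∧
      ∀ (W : Submodule ℚ_[ℓ] (∀ _ : Unit, Fin N → ℚ_[ℓ]))
        (hW₀ : ∀ x ∈ W, lin (aeval (matRep (ρ ℓ) γ₀) f₀) x ∈ W)
        (hW₁ : ∀ x ∈ W, lin (aeval (matRep (ρ ℓ) γ₁) f₁) x ∈ W) (i : Fin N),
        aeval (aeval (z₁ (π i)) f₁) ((lin (aeval (matRep (ρ ℓ) γ₁) f₁)).restrict hW₁).charpoly = 0 ↔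
        aeval (aeval (z₀ i) f₀) ((lin (aeval (matRep (ρ ℓ) γ₀) f₀)).restrict hW₀).charpoly = 0 := by
  have hy₁ := h₁.rel ▸ hr₁
  obtain ⟨c₁, hc₁⟩ := hy₁.indep
  have hline : ∀ t : ℚ_[ℓ], (lin (aeval (matRep (ρ ℓ) γ₀) f₀) + t •
      (lin (aeval (matRep (ρ ℓ) γ₁) f₁) - lin (aeval (matRep (ρ ℓ) γ₀) f₀))).charpoly.Separable →
      Dependent (Om ℓ) (exsK (r + 1) (finrank ℚ K) N c wt) (lin (aeval (matRep (ρ ℓ) γ₀) f₀) + t •
      (lin (aeval (matRep (ρ ℓ) γ₁) f₁) - lin (aeval (matRep (ρ ℓ) γ₀) f₀))) := by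
    intro t ht
    have e : lin (aeval (matRep (ρ ℓ) γ₀) f₀) + t •
      (lin (aeval (matRep (ρ ℓ) γ₁) f₁) - lin (aeval (matRep (ρ ℓ) γ₀) f₀)) =
      lin (aeval (matRep (ρ ℓ) γ₀) f₀ + t • (aeval (matRep (ρ ℓ) γ₁) f₁ +
        (-1 : ℚ_[ℓ]) • aeval (matRep (ρ ℓ) γ₀) f₀)) := by
      change linHom ℓ N _ + t • (linHom ℓ N _ - linHom ℓ N _) = linHom ℓ N _
      rw [map_add, map_smul, map_add, map_smul]
      congr 2
      module
    rw [e, charpoly_lin] at ht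
    rw [e]
    exact dependent_tangent h ℓ (Pool.Agent.Y708.ZO.tangent_add _ t₀
      (Pool.Agent.Y708.ZO.tangent_smul _ t (Pool.Agent.Y708.ZO.tangent_add _ t₁
        (Pool.Agent.Y708.ZO.tangent_smul _ (-1) t₀)))) ht
  obtain ⟨x, hxinj, hxroot, hxrel, hxW⟩ := pencilU (Ω := Om ℓ)
    (exsK (r + 1) (finrank ℚ K) N c wt) (zero_notMem_exsK _ _ _ _ _) hline
    (fun i => aeval (z₀ i) f₀) h₀.yinj (by rw [finrank_uu, Fintype.card_fin])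
    (fun i => by rw [charpoly_lin]; exact h₀.yroot i) (by rw [charpoly_lin]; exact h₁.sep)
    (h₀.rel ▸ hr₀).indep ⟨fun j => aeval (z₁ (c₁ j)) f₁,
      fun j => by rw [charpoly_lin]; exact h₁.yroot _, hc₁⟩
  have hex : ∀ i, ∃ j, aeval (z₁ j) f₁ = x i := fun i =>
    (sep_of_roots (Matrix.charpoly_monic _) (by
      rw [Matrix.charpoly_natDegree_eq_dim, Fintype.card_fin]) h₁.yinj h₁.yroot).2 (x i) (by
        have h2 := hxroot i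
        rwa [charpoly_lin] at h2)
  obtain ⟨π, hπ⟩ := exists_equiv hxinj hex rfl
  refine ⟨π, fun n => ?_, fun W hW₀ hW₁ i => ?_⟩
  · rw [← h₁.rel, ← h₀.rel, mem_lrel_perm π n]
    have h2 : (fun i => aeval (z₁ (π i)) f₁) = x := funext hπ
    rw [h2]
    exact hxrel _
  · rw [hπ]
    exact hxW W hW₀ hW₁ i

/-- the labels of an invariant subspace are given by the eigenvalues -/
theorem mem_iff_root {ℓ : ℕ} [Fact ℓ.Prime] {R : Set (Fin N → ℤ)}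
    {v₁ : HeightOneSpectrum (𝓞 K)} {γ₁ : Γ} {x : Fin N → ℚ_[ℓ]}
    {b : Basis (Fin N) ℚ_[ℓ] (∀ _ : Unit, Fin N → ℚ_[ℓ])} {f₁ : ℚ_[ℓ][X]}
    (hs : SplitDat ρ s S P r ℓ R v₁ γ₁ x b f₁)
    {W : Submodule ℚ_[ℓ] (∀ _ : Unit, Fin N → ℚ_[ℓ])}
    (hW₁ : ∀ x ∈ W, lin (aeval (matRep (ρ ℓ) γ₁) f₁) x ∈ W) (i : Fin N) :
    b i ∈ W ↔ aeval (aeval (algebraMap ℚ_[ℓ] (Om ℓ) (x i)) f₁)
      ((lin (aeval (matRep (ρ ℓ) γ₁) f₁)).restrict hW₁).charpoly = 0 := by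
  classical
  have hl₁ := hs.log
  have hXb : ∀ i, lin (aeval (matRep (ρ ℓ) γ₁) f₁) (b i) = aeval (x i) f₁ • b i := by
    intro i
    rw [lin_aeval, ← ZL.sumRep_eq]
    exact aeval_basis b hs.eig f₁ i
  have hyinj : Injective fun i => aeval (x i) f₁ := by
    intro i j hij
    apply hl₁.yinj
    change aeval (algebraMap ℚ_[ℓ] (Om ℓ) (x i)) f₁ = aeval (algebraMap ℚ_[ℓ] (Om ℓ) (x j)) f₁
    rw [aeval_algebraMap_apply, aeval_algebraMap_apply]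
    exact congrArg _ hij
  have h0 : aeval (aeval (algebraMap ℚ_[ℓ] (Om ℓ) (x i)) f₁)
      ((lin (aeval (matRep (ρ ℓ) γ₁) f₁)).restrict hW₁).charpoly = 0 ↔
      Module.End.HasEigenvalue ((lin (aeval (matRep (ρ ℓ) γ₁) f₁)).restrict hW₁)
      (aeval (x i) f₁) := by
    rw [Module.End.hasEigenvalue_iff_isRoot_charpoly, IsRoot.def, ← coe_aeval_eq_eval]
    rw [aeval_algebraMap_apply, aeval_algebraMap_apply]
    exact map_eq_zero_iff _ (algebraMap ℚ_[ℓ] (Om ℓ)).injective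
  rw [h0]
  constructor
  · intro hi
    refine Module.End.hasEigenvalue_of_hasEigenvector (x := ⟨b i, hi⟩)
      ⟨Module.End.mem_eigenspace_iff.2 ?_, ?_⟩
    · apply Subtype.ext
      rw [LinearMap.restrict_coe_apply]
      exact hXb i
    · intro h1
      exact b.ne_zero i (congrArg Subtype.val h1)
  · intro hi
    obtain ⟨u, hu⟩ := hi.exists_hasEigenvector
    have h1 := congrArg (fun w : W => (w : ∀ _ : Unit, Fin N → ℚ_[ℓ])) hu.apply_eq_smul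
    simp only [LinearMap.restrict_coe_apply, Submodule.coe_smul] at h1
    have h2 : ∃ j, b.repr (u : ∀ _ : Unit, Fin N → ℚ_[ℓ]) j ≠ 0 := by
      by_contra hno
      push Not at hno
      apply hu.2
      apply Subtype.ext
      rw [← b.sum_repr (u : ∀ _ : Unit, Fin N → ℚ_[ℓ])]
      exact Finset.sum_eq_zero fun j _ => by rw [hno j, zero_smul]
    obtain ⟨j, hj⟩ := h2
    have h3 : b.repr (lin (aeval (matRep (ρ ℓ) γ₁) f₁) u) j = aeval (x j) f₁ * b.repr u j := by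
      conv_lhs => rw [← b.sum_repr (u : ∀ _ : Unit, Fin N → ℚ_[ℓ])]
      rw [map_sum, map_sum, Finsupp.finsetSum_apply, Finset.sum_eq_single j]
      · rw [map_smul, hXb, map_smul, map_smul, Basis.repr_self, Finsupp.smul_apply,
          Finsupp.smul_apply, Finsupp.single_eq_same, smul_eq_mul, smul_eq_mul, mul_one, mul_comm]
      · intro l _ hl
        rw [map_smul, hXb, map_smul, map_smul, Basis.repr_self, Finsupp.smul_apply,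
          Finsupp.smul_apply, Finsupp.single_eq_of_ne (Ne.symm hl), smul_zero, smul_zero]
      · intro h
        exact absurd (Finset.mem_univ j) h
    rw [h1, map_smul, Finsupp.smul_apply, smul_eq_mul] at h3
    have h4 : i = j := hyinj (mul_right_cancel₀ hj h3)
    rw [h4]
    exact comp_mem b hyinj hXb W hW₁ u.2 hj

/-- the group of the labels -/
theorem label_group (h : SetupG K Γ s N wt c r S P ρ) (ℓ : ℕ) [Fact ℓ.Prime]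
    {R : Set (Fin N → ℤ)} {T : Set (Equiv.Perm (Fin N))}
    (hTA : T ⊆ relAut R) (hloc : ∀ a ∈ T, LocTyp S P r ℓ R a)
    {v₁ : HeightOneSpectrum (𝓞 K)} {γ₁ : Γ} {x : Fin N → ℚ_[ℓ]}
    {b : Basis (Fin N) ℚ_[ℓ] (∀ _ : Unit, Fin N → ℚ_[ℓ])} {f₁ : ℚ_[ℓ][X]}
    (hs : SplitDat ρ s S P r ℓ R v₁ γ₁ x b f₁) :
    ∃ H : Subgroup (Equiv.Perm (Fin N)), ConjIn (relAut R) T H ∧
      ∀ (Δ : Subgroup Γ), Δ.FiniteIndex → ∀ W : Submodule ℚ_[ℓ] (∀ _ : Unit, Fin N → ℚ_[ℓ]),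
        (∀ δ ∈ Δ, ∀ x ∈ W, sumRep (ρ ℓ) δ x ∈ W) → ∀ a ∈ H, ∀ i, b (a i) ∈ W ↔ b i ∈ W := by
  classical
  have hz₁R : relations (fun i => algebraMap ℚ_[ℓ] (Om ℓ) (x i)) = R := by
    rw [mrel_map (algebraMap ℚ_[ℓ] (Om ℓ)) x, hs.rel]
  let H : Subgroup (Equiv.Perm (Fin N)) :=
    { carrier := {a | a ∈ relAut R ∧ ∀ (Δ : Subgroup Γ), Δ.FiniteIndex →
        ∀ W : Submodule ℚ_[ℓ] (∀ _ : Unit, Fin N → ℚ_[ℓ]),
        (∀ δ ∈ Δ, ∀ x ∈ W, sumRep (ρ ℓ) δ x ∈ W) → ∀ i, b (a i) ∈ W ↔ b i ∈ W}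
      mul_mem' := fun {a a'} ha ha' => ⟨(relAut R).mul_mem ha.1 ha'.1, fun Δ hΔ W hW i => by
        change b (a (a' i)) ∈ W ↔ b i ∈ W
        rw [ha.2 Δ hΔ W hW, ha'.2 Δ hΔ W hW]⟩
      one_mem' := ⟨(relAut R).one_mem, fun Δ hΔ W hW i => Iff.rfl⟩
      inv_mem' := fun {a} ha => ⟨(relAut R).inv_mem ha.1, fun Δ hΔ W hW i => by
        have h1 := ha.2 Δ hΔ W hW (a⁻¹ i)
        have h2 : a (a⁻¹ i) = i := Equiv.apply_symm_apply a i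
        rw [h2] at h1
        exact h1.symm⟩ }
  refine ⟨H, ⟨fun a ha => ha.1, fun a ha => ?_⟩, fun Δ hΔ W hW a ha i => ha.2 Δ hΔ W hW i⟩
  obtain ⟨v, hv, hvℓ, τ, z, hzinj, hz, hzR, hτ⟩ := hloc a ha
  obtain ⟨γ, f, hc, hl, hr, ht⟩ := h.log ℓ hv hvℓ hzinj hz
  obtain ⟨π, hπ, hlab⟩ := compareU h ℓ hs.log hl hs.tan ht hs.rank hr
  have hπA : π ∈ relAut R := by
    intro n
    rw [← hz₁R, ← hπ n, hzR, hz₁R]
  refine ⟨π, hπA, (relAut R).mul_mem ((relAut R).mul_mem ((relAut R).inv_mem hπA) (hTA ha)) hπA,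
    fun Δ hΔ W hW i => ?_⟩
  have hW₁ := hs.log.stab hΔ hW
  have hWa := hl.stab hΔ hW
  have hπ' : π ((π⁻¹ * a * π) i) = a (π i) := Equiv.apply_symm_apply π (a (π i))
  rw [mem_iff_root hs hW₁, mem_iff_root hs hW₁]
  rw [← hlab W hW₁ hWa, ← hlab W hW₁ hWa, hπ', ← hτ (π i)]
  have h1 : aeval (τ (z (π i))) f = τ (aeval (z (π i)) f) :=
    Polynomial.aeval_algHom_apply (τ : Om ℓ →ₐ[ℚ_[ℓ]] Om ℓ) (z (π i)) f
  have h2 : ∀ (x : Om ℓ) (Q : ℚ_[ℓ][X]), aeval (τ x) Q = τ (aeval x Q) := fun x Q =>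
    Polynomial.aeval_algHom_apply (τ : Om ℓ →ₐ[ℚ_[ℓ]] Om ℓ) x Q
  rw [h1, h2, map_eq_zero_iff _ τ.injective]

end

end Pool.Agent.R931.PD
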