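import Mathlib
import Pool.Agent.R931.PD.Local

/-!
# Endomorphisms and invariant subspaces, and the group of the labels
-/

set_option autoImplicit false
set_option linter.unusedSectionVars false

namespace Pool.Agent.R931.PD

open Function Polynomial Module NumberField IsDedekindDomain Pool.Agent.TH118.SG
  Pool.Agent.Y114.RM Pool.Agent.Y114.MU Pool.Agent.Y114.TF Pool.Agent.Y114.GF
  Pool.Agent.H204R3.GP Pool.Agent.R931.GD Pool.Agent.Y142.ZO Pool.Agent.Y142.ZI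
  Pool.Agent.Y142.SS Pool.Agent.R931.BD Pool.Agent.R931.ZL Pool.Agent.R931.ZM
open Pool.Agent.Y142.ZD (DistPow dist_of_nice)
open Pool.Agent.Y142.ZS (NiceP nice_of_p)
open Pool.Agent.Y497.ZO (Mt Aj)
open Pool.Agent.Y936.SS (Om)

section basis

variable {k V I : Type} [Field k] [AddCommGroup V] [Module k V] [FiniteDimensional k V]
  [Fintype I]

theorem finrank_le_orbits (b : Basis I k V) (H : Subgroup (Equiv.Perm I))
    (C : Submodule k (End k V)) (hC1 : ∀ Y ∈ C, ∀ i, Y (b i) = b.repr (Y (b i)) i • b i)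
    (hC2 : ∀ Y ∈ C, ∀ a ∈ H, ∀ i, b.repr (Y (b (a i))) (a i) = b.repr (Y (b i)) i) :
    finrank k C ≤ orbitCount H := by
  classical
  let Q : Type := MulAction.orbitRel.Quotient H I
  have hQ : Finite Q := Quotient.finite _
  let _ : Fintype Q := Fintype.ofFinite Q
  let Φ : C →ₗ[k] (Q → k) :=
    { toFun := fun Y o => b.repr ((Y : End k V) (b (Quotient.out o))) (Quotient.out o)
      map_add' := by
        intro Y Z
        funext o
        rw [Submodule.coe_add, LinearMap.add_apply, map_add, Finsupp.add_apply]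
        rfl
      map_smul' := by
        intro a Y
        funext o
        rw [Submodule.coe_smul, LinearMap.smul_apply, map_smul, Finsupp.smul_apply]
        rfl }
  have hval : ∀ (Y : C) (i : I), (Y : End k V) (b i) = Φ Y (Quotient.mk _ i) • b i := by
    intro Y i
    let o : Q := Quotient.mk _ i
    have h4 : (MulAction.orbitRel H I) (Quotient.out o) i := Quotient.exact (Quotient.out_eq o)
    rw [MulAction.orbitRel_apply] at h4
    obtain ⟨a, ha⟩ := h4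
    have h5 : (a : Equiv.Perm I) i = Quotient.out o := ha
    have h6 := hC2 Y Y.2 a a.2 i
    rw [h5] at h6
    rw [hC1 Y Y.2 i, ← h6]
    rfl
  have hinj : Injective Φ := by
    intro Y Z hYZ
    apply Subtype.ext
    exact b.ext fun i => by rw [hval, hval, hYZ]
  have h1 := LinearMap.finrank_le_finrank_of_injective hinj
  rw [Module.finrank_fintype_fun_eq_card] at h1
  rw [orbitCount, Nat.card_eq_fintype_card]
  exact h1

end basis

section

variable {K : Type} [Field K] [NumberField K] {Γ : Type} [Group Γ] [TopologicalSpace Γ]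
  [IsTopologicalGroup Γ] [CompactSpace Γ] {s : Gal(AlgebraicClosure K/K) →* Γ} {N : ℕ} {wt : ℤ}
  {c r : ℕ} {S : Set (HeightOneSpectrum (𝓞 K))} {P : HeightOneSpectrum (𝓞 K) → ℚ[X]}
  {ρ : ∀ (ℓ : ℕ) [Fact ℓ.Prime], Rep1 Γ N ℓ}

/-- the labels of the invariant subspaces are stable under `H` -/
def Labels (ρ : ∀ (ℓ : ℕ) [Fact ℓ.Prime], Rep1 Γ N ℓ) (ℓ : ℕ) [Fact ℓ.Prime]
    (b : Basis (Fin N) ℚ_[ℓ] (∀ _ : Unit, Fin N → ℚ_[ℓ])) (H : Subgroup (Equiv.Perm (Fin N))) :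
    Prop :=
  ∀ (Δ : Subgroup Γ), Δ.FiniteIndex → ∀ W : Submodule ℚ_[ℓ] (∀ _ : Unit, Fin N → ℚ_[ℓ]),
    (∀ δ ∈ Δ, ∀ x ∈ W, sumRep (ρ ℓ) δ x ∈ W) → ∀ a ∈ H, ∀ i, b (a i) ∈ W ↔ b i ∈ W

/-- endomorphisms which commute with a subgroup of finite index are diagonal, with eigenvalues
which are constant on the orbits -/
theorem endo_diagH {ℓ : ℕ} [Fact ℓ.Prime] {R : Set (Fin N → ℤ)}
    {v₁ : HeightOneSpectrum (𝓞 K)} {γ₁ : Γ} {x : Fin N → ℚ_[ℓ]}
    {b : Basis (Fin N) ℚ_[ℓ] (∀ _ : Unit, Fin N → ℚ_[ℓ])} {f₁ : ℚ_[ℓ][X]}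
    (hs : SplitDat ρ s S P r ℓ R v₁ γ₁ x b f₁) {H : Subgroup (Equiv.Perm (Fin N))}
    (hH : Labels ρ ℓ b H) {Δ : Subgroup Γ} (hΔ : Δ.FiniteIndex)
    {Y : End ℚ_[ℓ] (∀ _ : Unit, Fin N → ℚ_[ℓ])}
    (hY : ∀ δ ∈ Δ, sumRep (ρ ℓ) δ * Y = Y * sumRep (ρ ℓ) δ) :
    (∀ i, Y (b i) = b.repr (Y (b i)) i • b i) ∧
      ∀ a ∈ H, ∀ i, b.repr (Y (b (a i))) (a i) = b.repr (Y (b i)) i := by
  classical
  obtain ⟨M, hM, -, hMΔ⟩ := Subgroup.exists_pow_mem_of_index_ne_zero hΔ.index_ne_zero γ₁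
  set G : End ℚ_[ℓ] (∀ _ : Unit, Fin N → ℚ_[ℓ]) := sumRep (ρ ℓ) γ₁ with hG
  have hbM : ∀ i, (G ^ M) (b i) = x i ^ M • b i := by
    intro i
    have h2 : ∀ j : ℕ, (G ^ j) (b i) = (x i) ^ j • b i := by
      intro j
      induction j with
      | zero => rw [pow_zero, pow_zero, one_smul, Module.End.one_apply]
      | succ j ih => rw [pow_succ', Module.End.mul_apply, ih, map_smul, hs.eig, smul_smul, pow_succ]
    exact h2 M
  have hdistM : ∀ i j, x i ^ M = x j ^ M → i = j := by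
    intro i j hij
    apply hs.xinj
    have h1 := dist_of_nice hs.good.1 ℓ M (algebraMap ℚ_[ℓ] (AlgebraicClosure ℚ_[ℓ]) (x i))
      (algebraMap ℚ_[ℓ] (AlgebraicClosure ℚ_[ℓ]) (x j)) hM
      (by rw [aeval_algebraMap_apply, hs.xroot, map_zero])
      (by rw [aeval_algebraMap_apply, hs.xroot, map_zero])
      (by rw [← map_pow, hij, map_pow])
    exact (algebraMap ℚ_[ℓ] (AlgebraicClosure ℚ_[ℓ])).injective h1
  have hYM : (G ^ M) * Y = Y * (G ^ M) := by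
    have h1 := hY _ hMΔ
    rw [map_pow] at h1
    exact h1
  have hYb : ∀ i, Y (b i) = b.repr (Y (b i)) i • b i := by
    intro i
    have h1 : (G ^ M) (Y (b i)) = x i ^ M • Y (b i) := by
      have h2 := LinearMap.congr_fun hYM (b i)
      rw [Module.End.mul_apply, Module.End.mul_apply, hbM, map_smul] at h2
      exact h2
    have h2 : ∀ j, j ≠ i → b.repr (Y (b i)) j = 0 := by
      intro j hj
      have h3 : Y (b i) ∈ (G ^ M).maxGenEigenspace (x i ^ M) :=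
        mem_gen.2 ⟨1, by
          rw [pow_one, LinearMap.sub_apply, Module.algebraMap_end_apply, h1, sub_self]⟩
      rcases gen_eq b hbM h3 j with h4 | h4
      · exact h4
      · exact absurd (hdistM j i h4) hj
    conv_lhs => rw [← b.sum_repr (Y (b i))]
    rw [Finset.sum_eq_single i]
    · intro j _ hj
      rw [h2 j hj, zero_smul]
    · intro hi
      exact absurd (Finset.mem_univ i) hi
  refine ⟨hYb, fun a ha i => ?_⟩
  set lam := b.repr (Y (b i)) i with hlam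
  have hstab : ∀ δ ∈ Δ, ∀ w ∈ LinearMap.ker (Y - algebraMap ℚ_[ℓ] _ lam),
      sumRep (ρ ℓ) δ w ∈ LinearMap.ker (Y - algebraMap ℚ_[ℓ] _ lam) := by
    intro δ hδ w hw
    rw [LinearMap.mem_ker, LinearMap.sub_apply, Module.algebraMap_end_apply, sub_eq_zero] at hw ⊢
    have h2 := LinearMap.congr_fun (hY δ hδ) w
    rw [Module.End.mul_apply, Module.End.mul_apply] at h2
    rw [← h2, hw, map_smul]
  have h1 : b i ∈ LinearMap.ker (Y - algebraMap ℚ_[ℓ] _ lam) := by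
    rw [LinearMap.mem_ker, LinearMap.sub_apply, Module.algebraMap_end_apply, hYb i, ← hlam,
      sub_self]
  have h2 := (hH Δ hΔ _ hstab a ha i).2 h1
  rw [LinearMap.mem_ker, LinearMap.sub_apply, Module.algebraMap_end_apply, sub_eq_zero] at h2
  rw [h2, map_smul, Finsupp.smul_apply, Basis.repr_self, Finsupp.single_eq_same, smul_eq_mul,
    mul_one]

/-- the endomorphisms of the sum which commute with `Δ` -/
def comS (ρ : ∀ (ℓ : ℕ) [Fact ℓ.Prime], Rep1 Γ N ℓ) (ℓ : ℕ) [Fact ℓ.Prime] (Δ : Subgroup Γ) :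
    Submodule ℚ_[ℓ] (End ℚ_[ℓ] (∀ _ : Unit, Fin N → ℚ_[ℓ])) where
  carrier := {Y | ∀ γ ∈ Δ, sumRep (ρ ℓ) γ * Y = Y * sumRep (ρ ℓ) γ}
  add_mem' := fun {Y Z} hY hZ γ hγ => by rw [mul_add, add_mul, hY γ hγ, hZ γ hγ]
  zero_mem' := fun γ _ => by rw [mul_zero, zero_mul]
  smul_mem' := fun a Y hY γ hγ => by rw [mul_smul_comm, smul_mul_assoc, hY γ hγ]

theorem comS_le {ℓ : ℕ} [Fact ℓ.Prime] {R : Set (Fin N → ℤ)}
    {v₁ : HeightOneSpectrum (𝓞 K)} {γ₁ : Γ} {x : Fin N → ℚ_[ℓ]}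
    {b : Basis (Fin N) ℚ_[ℓ] (∀ _ : Unit, Fin N → ℚ_[ℓ])} {f₁ : ℚ_[ℓ][X]}
    (hs : SplitDat ρ s S P r ℓ R v₁ γ₁ x b f₁) {H : Subgroup (Equiv.Perm (Fin N))}
    (hH : Labels ρ ℓ b H) {Δ : Subgroup Γ} (hΔ : Δ.FiniteIndex) :
    finrank ℚ_[ℓ] (comS ρ ℓ Δ) ≤ orbitCount H :=
  finrank_le_orbits b H _ (fun _ hY => (endo_diagH hs hH hΔ hY).1)
    (fun _ hY => (endo_diagH hs hH hΔ hY).2)

theorem com_le {ℓ : ℕ} [Fact ℓ.Prime] {R : Set (Fin N → ℤ)}
    {v₁ : HeightOneSpectrum (𝓞 K)} {γ₁ : Γ} {x : Fin N → ℚ_[ℓ]}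
    {b : Basis (Fin N) ℚ_[ℓ] (∀ _ : Unit, Fin N → ℚ_[ℓ])} {f₁ : ℚ_[ℓ][X]}
    (hs : SplitDat ρ s S P r ℓ R v₁ γ₁ x b f₁) {H : Subgroup (Equiv.Perm (Fin N))}
    (hH : Labels ρ ℓ b H) {Δ : Subgroup Γ} (hΔ : Δ.FiniteIndex) :
    finrank ℚ_[ℓ] (commutant (ρ ℓ) Δ) ≤ orbitCount H := by
  refine le_trans ?_ (comS_le hs hH hΔ)
  have hconj : ∀ Y ∈ commutant (ρ ℓ) Δ, (uu ℓ N).conj Y ∈ comS ρ ℓ Δ := by
    intro Y hY δ hδ
    have h1 : sumRep (ρ ℓ) δ = (uu ℓ N).conj (ρ ℓ () δ) := sumRep_unit N (ρ ℓ ()) δ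
    have h2 := hY δ hδ
    rw [h1]
    change (uu ℓ N).conj (ρ ℓ () δ) ∘ₗ (uu ℓ N).conj Y = (uu ℓ N).conj Y ∘ₗ (uu ℓ N).conj (ρ ℓ () δ)
    rw [← LinearEquiv.conj_comp, ← LinearEquiv.conj_comp]
    exact congrArg _ h2
  let Ψ : commutant (ρ ℓ) Δ →ₗ[ℚ_[ℓ]] comS ρ ℓ Δ :=
    ((uu ℓ N).conj : End ℚ_[ℓ] (Fin N → ℚ_[ℓ]) →ₗ[ℚ_[ℓ]] _).restrict hconj
  refine LinearMap.finrank_le_finrank_of_injective (f := Ψ) fun Y Z hYZ => ?_
  apply Subtype.ext
  apply (uu ℓ N).conj.injective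
  exact congrArg Subtype.val hYZ

theorem stable_le {ℓ : ℕ} [Fact ℓ.Prime] {R : Set (Fin N → ℤ)}
    {v₁ : HeightOneSpectrum (𝓞 K)} {γ₁ : Γ} {x : Fin N → ℚ_[ℓ]}
    {b : Basis (Fin N) ℚ_[ℓ] (∀ _ : Unit, Fin N → ℚ_[ℓ])} {f₁ : ℚ_[ℓ][X]}
    (hs : SplitDat ρ s S P r ℓ R v₁ γ₁ x b f₁) {H : Subgroup (Equiv.Perm (Fin N))}
    (hH : Labels ρ ℓ b H) {Δ : Subgroup Γ} (hΔ : Δ.FiniteIndex) :
    (stableSubspaces (ρ ℓ) Δ).encard ≤ 2 ^ orbitCount H := by
  classical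
  let Q : Type := MulAction.orbitRel.Quotient H (Fin N)
  have hQ : Finite Q := Quotient.finite _
  let _ : Fintype Q := Fintype.ofFinite Q
  let up : Submodule ℚ_[ℓ] (Fin N → ℚ_[ℓ]) → Submodule ℚ_[ℓ] (∀ _ : Unit, Fin N → ℚ_[ℓ]) :=
    fun W => W.comap ((uu ℓ N).symm : _ →ₗ[ℚ_[ℓ]] _)
  have hup : ∀ W x, x ∈ up W ↔ x () ∈ W := fun W x => Iff.rfl
  have hupW : ∀ W ∈ stableSubspaces (ρ ℓ) Δ, ∀ δ ∈ Δ, ∀ x ∈ up W, sumRep (ρ ℓ) δ x ∈ up W := by
    intro W hW δ hδ x hx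
    exact hW δ hδ _ hx
  have hyinj : Injective fun i => aeval (x i) f₁ := by
    intro i j hij
    apply hs.log.yinj
    change aeval (algebraMap ℚ_[ℓ] (Om ℓ) (x i)) f₁ = aeval (algebraMap ℚ_[ℓ] (Om ℓ) (x j)) f₁
    rw [aeval_algebraMap_apply, aeval_algebraMap_apply]
    exact congrArg _ hij
  have hXb : ∀ i, lin (aeval (matRep (ρ ℓ) γ₁) f₁) (b i) = aeval (x i) f₁ • b i := by
    intro i
    rw [lin_aeval, ← ZL.sumRep_eq]
    exact aeval_basis b hs.eig f₁ i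
  let F : stableSubspaces (ρ ℓ) Δ → Set Q := fun W => {o | b (Quotient.out o) ∈ up W}
  have hmem : ∀ (W : stableSubspaces (ρ ℓ) Δ) (i : Fin N),
      b i ∈ up W ↔ (Quotient.mk _ i : Q) ∈ F W := by
    intro W i
    have h4 : (MulAction.orbitRel H (Fin N)) (Quotient.out (Quotient.mk _ i : Q)) i :=
      Quotient.exact (Quotient.out_eq _)
    rw [MulAction.orbitRel_apply] at h4
    obtain ⟨a, ha⟩ := h4
    have h5 : (a : Equiv.Perm (Fin N)) i = Quotient.out (Quotient.mk _ i : Q) := ha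
    change _ ↔ b (Quotient.out (Quotient.mk _ i : Q)) ∈ up W
    rw [← h5]
    exact (hH Δ hΔ _ (hupW W W.2) a a.2 i).symm
  have hle : ∀ W₁ W₂ : stableSubspaces (ρ ℓ) Δ, F W₁ = F W₂ → ∀ w, w ∈ up W₁ → w ∈ up W₂ := by
    intro W₁ W₂ hF w hw
    rw [← b.sum_repr w]
    refine Submodule.sum_mem _ fun i _ => ?_
    by_cases hi : b.repr w i = 0
    · rw [hi, zero_smul]
      exact Submodule.zero_mem _
    · refine Submodule.smul_mem _ _ ?_
      have h1 := comp_mem b hyinj hXb (up W₁) (hs.log.stab hΔ (hupW W₁ W₁.2)) hw hi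
      rw [hmem] at h1 ⊢
      rw [← hF]
      exact h1
  have hinj : Injective F := by
    intro W₁ W₂ hF
    apply Subtype.ext
    ext w
    exact ⟨fun hw => hle W₁ W₂ hF (fun _ => w) hw, fun hw => hle W₂ W₁ hF.symm (fun _ => w) hw⟩
  have hfin : Finite (stableSubspaces (ρ ℓ) Δ) := Finite.of_injective F hinj
  have h1 := Nat.card_le_card_of_injective F hinj
  have h2 : Nat.card (Set Q) = 2 ^ orbitCount H := by
    rw [Nat.card_eq_fintype_card, Fintype.card_set, orbitCount, Nat.card_eq_fintype_card]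
  rw [h2] at h1
  rw [← (Set.toFinite (stableSubspaces (ρ ℓ) Δ)).cast_ncard_eq]
  have h3 : (stableSubspaces (ρ ℓ) Δ).ncard ≤ 2 ^ orbitCount H := by
    rw [← Nat.card_coe_set_eq]
    exact h1
  exact_mod_cast h3

end

section motivic

variable {k : Type} [Field k] {V : Type} [AddCommGroup V] [Module k V] {Γ : Type} [Group Γ]
  (ρ : Representation k Γ V)

/-- an endomorphism which commutes with `𝔤` commutes with a subgroup of finite index -/
theorem comm_tate {𝔤 : Submodule k (End k V)}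
    (h𝔤 : ∀ (m : ℕ) (φ : Tensor k V m), (∀ Y ∈ 𝔤, KillsTensor Y φ) → TateTensor ρ φ)
    {P : End k V} (hP : ∀ X ∈ 𝔤, X * P = P * X) :
    ∃ Δ : Subgroup Γ, Δ.FiniteIndex ∧ ∀ s ∈ Δ, ρ s * P = P * ρ s := by
  let ω : (V × Dual k V) →ₗ[k] (V × Dual k V) →ₗ[k] k :=
    LinearMap.mk₂ k (fun a b => b.2 (P a.1))
      (fun a a' b => by rw [Prod.fst_add, map_add, map_add])
      (fun c a b => by rw [Prod.smul_fst, map_smul, map_smul])
      (fun a b b' => by rw [Prod.snd_add, LinearMap.add_apply])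
      (fun c a b => by rw [Prod.smul_snd, LinearMap.smul_apply])
  let φ : Tensor k V 2 := Pool.Agent.H204R3.SP.bil2 ω
  have hφ : ∀ v, φ v = (v 1).2 (P (v 0).1) := fun v => rfl
  obtain ⟨Δ, hΔ, h1⟩ := h𝔤 2 φ (by
    intro X hX v
    rw [Fin.sum_univ_two, hφ, hφ, Function.update_self, Function.update_self,
      Function.update_of_ne Fin.zero_ne_one.symm, Function.update_of_ne Fin.zero_ne_one]
    change (v 1).2 (P (X (v 0).1)) + -((v 1).2 (X (P (v 0).1))) = 0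
    have h2 := LinearMap.congr_fun (hP X hX) (v 0).1
    rw [Module.End.mul_apply, Module.End.mul_apply] at h2
    rw [h2, add_neg_cancel])
  refine ⟨Δ, hΔ, fun s hs => ?_⟩
  refine LinearMap.ext fun x => ?_
  rw [Module.End.mul_apply, Module.End.mul_apply]
  have h3 : ρ s⁻¹ (P (ρ s x)) = P x := by
    rw [← sub_eq_zero, ← Module.forall_dual_apply_eq_zero_iff k]
    intro ξ
    have h2 := h1 s hs ![(x, 0), (0, ξ)]
    rw [hφ, hφ] at h2
    change ξ (ρ s⁻¹ (P (ρ s x))) = ξ (P x) at h2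
    rw [map_sub, h2, sub_self]
  rw [← h3, ← Module.End.mul_apply, ← map_mul, mul_inv_cancel, map_one, Module.End.one_apply]

end motivic

end Pool.Agent.R931.PD
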