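import Mathlib
import Pool.Agent.R931.ZM.Key

/-!
# Frobenius elements and polynomials which split modulo `ℓ`
-/

set_option autoImplicit false

namespace Pool.Agent.R931.PD

open Polynomial Module NumberField Pool.Agent.Y142.ZI Pool.Agent.H204R3.GP Pool.Agent.TH118.SG
  Pool.Agent.Y114.RM Pool.Agent.Y114.MU Pool.Agent.Y114.TF Pool.Agent.Y114.GF Pool.Agent.Y142.ZO

theorem frob_fix {ℓ : ℕ} [hℓ : Fact ℓ.Prime] {f : ℤ[X]} (hf : f.Monic)
    (hsep : (f.map (Int.castRingHom (ZMod ℓ))).Separable)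
    (hspl : (f.map (Int.castRingHom (ZMod ℓ))).Splits) {σ : GK ℚ} (hσ : FrobAt ℓ σ) {x : QQ}
    (hx : aeval x f = 0) : σ x = x := by
  classical
  obtain ⟨𝔔, hmax, hmem, hF⟩ := hσ
  have := hmax
  let k : Type := 𝓞 QQ ⧸ 𝔔
  let _ : Field k := Ideal.Quotient.field 𝔔
  have hint : IsIntegral ℤ x := ⟨f, hf, by rwa [aeval_def] at hx⟩
  let y : 𝓞 QQ := ⟨x, hint⟩
  have hyx : algebraMap (𝓞 QQ) QQ y = x := rfl
  have hy : aeval y f = 0 := by
    apply FaithfulSMul.algebraMap_injective (𝓞 QQ) QQ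
    rw [map_zero, ← aeval_algebraMap_apply, hyx, hx]
  let π : 𝓞 QQ →+* k := Ideal.Quotient.mk 𝔔
  have hπ0 : π (ℓ : 𝓞 QQ) = 0 := Ideal.Quotient.eq_zero_iff_mem.2 hmem
  have hk0 : (ℓ : k) = 0 := by
    rw [← hπ0, map_natCast]
  have hchar : CharP k ℓ := (CharP.charP_iff_prime_eq_zero hℓ.out).2 hk0
  let φ : ZMod ℓ →+* k := ZMod.castHom (dvd_refl ℓ) k
  have hcomp : φ.comp (Int.castRingHom (ZMod ℓ)) = π.comp (algebraMap ℤ (𝓞 QQ)) :=
    RingHom.ext_int _ _
  have hfk : (f.map (Int.castRingHom (ZMod ℓ))).map φ = (f.map (algebraMap ℤ (𝓞 QQ))).map π := by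
    rw [Polynomial.map_map, Polynomial.map_map, hcomp]
  have hroot : ∀ z : 𝓞 QQ, aeval z f = 0 → (f.map (algebraMap ℤ (𝓞 QQ))).eval z = 0 := by
    intro z hz
    rwa [eval_map_algebraMap]
  -- the root modulo `𝔔` is in the prime field
  have h0 : (f.map (Int.castRingHom (ZMod ℓ))).map φ ≠ 0 := ((hf.map _).map _).ne_zero
  have h1 : π y ∈ ((f.map (Int.castRingHom (ZMod ℓ))).map φ).roots := by
    rw [mem_roots h0, IsRoot.def, hfk, eval_map_apply, hroot y hy, map_zero]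
  rw [hspl.roots_map] at h1
  obtain ⟨a, -, ha⟩ := Multiset.mem_map.1 h1
  have h2 : π y ^ ℓ = π y := by
    rw [← ha, ← map_pow, ZMod.pow_card]
  have h3 : π (σ • y) = π y := by
    have h4 : π (σ • y - y ^ ℓ) = 0 := Ideal.Quotient.eq_zero_iff_mem.2 (hF y)
    rw [map_sub, map_pow, h2, sub_eq_zero] at h4
    exact h4
  have hσy : algebraMap (𝓞 QQ) QQ (σ • y) = σ x := rfl
  have hσroot : aeval (σ • y) f = 0 := by
    apply FaithfulSMul.algebraMap_injective (𝓞 QQ) QQ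
    rw [map_zero, ← aeval_algebraMap_apply, hσy]
    have h5 : aeval (σ x) f = σ (aeval x f) :=
      Polynomial.aeval_algHom_apply (σ.toAlgHom.restrictScalars ℤ) x f
    rw [h5, hx, map_zero]
  -- different roots are incongruent
  by_contra hne
  have hne' : σ • y - y ≠ 0 := by
    intro h6
    apply hne
    rw [← hσy, sub_eq_zero.1 h6, hyx]
  obtain ⟨g, hg⟩ := dvd_iff_isRoot.2 (hroot y hy : IsRoot (f.map (algebraMap ℤ (𝓞 QQ))) y)
  have h7 : g.eval (σ • y) = 0 := by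
    have h8 := hroot _ hσroot
    rw [hg, eval_mul, eval_sub, eval_X, eval_C] at h8
    exact (mul_eq_zero.1 h8).resolve_left hne'
  have h9 : (g.map π).eval (π y) = 0 := by
    rw [← h3, eval_map_apply, h7, map_zero]
  obtain ⟨g', hg'⟩ := dvd_iff_isRoot.2 (h9 : IsRoot (g.map π) (π y))
  have hsep' : ((f.map (Int.castRingHom (ZMod ℓ))).map φ).Separable := hsep.map
  rw [hfk, hg, Polynomial.map_mul, Polynomial.map_sub, map_X, map_C, hg', ← mul_assoc] at hsep'
  have h10 := hsep'.squarefree (X - C (π y)) (dvd_mul_right _ _)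
  exact not_isUnit_X_sub_C _ h10

end Pool.Agent.R931.PD
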