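import Mathlib
import Pool.Agent.R931.ZM.Fin

/-!
# The primes which split in the intersection of the splitting fields
-/

set_option autoImplicit false
set_option linter.unusedSectionVars false

namespace Pool.Agent.R931.PD

open Function Polynomial Module NumberField IsDedekindDomain Pool.Agent.TH118.SG
  Pool.Agent.Y114.RM Pool.Agent.Y114.MU Pool.Agent.Y114.TF Pool.Agent.Y114.GF
  Pool.Agent.H204R3.GP Pool.Agent.R931.GD Pool.Agent.Y142.ZO Pool.Agent.Y142.ZI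
  Pool.Agent.Y142.SS Pool.Agent.R931.BD Pool.Agent.R931.ZL Pool.Agent.R931.ZM
open Pool.Agent.Y142.ZD (DistPow dist_of_nice)
open Pool.Agent.Y142.ZS (NiceP nice_of_p S_SPL)
open Pool.Agent.Y936.SS (Om)

section

variable {K : Type} [Field K] [NumberField K] {Γ : Type} [Group Γ] [TopologicalSpace Γ]
  [IsTopologicalGroup Γ] [CompactSpace Γ] {s : Gal(AlgebraicClosure K/K) →* Γ} {N : ℕ} {wt : ℤ}
  {c r : ℕ} {S : Set (HeightOneSpectrum (𝓞 K))} {P : HeightOneSpectrum (𝓞 K) → ℚ[X]}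
  {ρ : ∀ (ℓ : ℕ) [Fact ℓ.Prime], Rep1 Γ N ℓ}

/-- the subgroup generated by the absolute Galois groups of the splitting fields at the good places -/
noncomputable def core (S : Set (HeightOneSpectrum (𝓞 K))) (P : HeightOneSpectrum (𝓞 K) → ℚ[X]) (r : ℕ) :
    Subgroup (GK ℚ) :=
  Subgroup.closure (⋃ u : {u // GoodPl S P r u}, Fix (P u))

theorem fix_le_core {v : HeightOneSpectrum (𝓞 K)} (hv : GoodPl S P r v) {g : GK ℚ}
    (hg : g ∈ Fix (P v)) : g ∈ core S P r :=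
  Subgroup.subset_closure (Set.mem_iUnion.2 ⟨⟨v, hv⟩, hg⟩)

theorem core_conj (g d : GK ℚ) (hd : d ∈ core S P r) : g * d * g⁻¹ ∈ core S P r := by
  refine Subgroup.closure_induction (p := fun d _ => g * d * g⁻¹ ∈ core S P r) ?_ ?_ ?_ ?_ hd
  · intro d hd
    obtain ⟨u, hu⟩ := Set.mem_iUnion.1 hd
    exact fix_le_core u.2 (fix_conj hu g)
  · rw [mul_one, mul_inv_cancel]
    exact (core S P r).one_mem
  · intro a b _ _ ha hb
    have h1 := (core S P r).mul_mem ha hb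
    have h2 : g * a * g⁻¹ * (g * b * g⁻¹) = g * (a * b) * g⁻¹ := by group
    rwa [h2] at h1
  · intro a _ ha
    have h1 := (core S P r).inv_mem ha
    have h2 : (g * a * g⁻¹)⁻¹ = g * a⁻¹ * g⁻¹ := by group
    rwa [h2] at h1

/-- all Frobenius elements at `ℓ` are in the core -/
def InCore (S : Set (HeightOneSpectrum (𝓞 K))) (P : HeightOneSpectrum (𝓞 K) → ℚ[X]) (r ℓ : ℕ) :
    Prop := ∀ σ, FrobAt ℓ σ → σ ∈ core S P r

theorem densityC (h : SetupG K Γ s N wt c r S P ρ) (hLOC : S_LOC) (hINT : S_INT)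
    (hDENS2 : S_DENS2)
    {Φ : ℚ[X] → Set (GK ℚ)} (hΦ : IsClassR N Φ) {v₁ : HeightOneSpectrum (𝓞 K)}
    (hv₁ : GoodPl S P r v₁) {w : GK ℚ} (hw : w ∈ Φ (P v₁)) (hwc : w ∈ core S P r) (Bad : Set ℕ)
    (hBad : ∀ ℓ ∈ Bad, ℓ.Prime) (hBadc : ∀ ℓ ∈ Bad, InCore S P r ℓ)
    (hbad : ∀ v, GoodPl S P r v → ∃ b : ℕ, ∀ ℓ ∈ Bad, b < ℓ → ∀ σ, FrobAt ℓ σ → σ ∉ Φ (P v)) :
    Pool.Agent.Y142.ZI.DensityZero Bad := by
  classical
  refine hDENS2 Bad N.factorial hBad fun M hM => ?_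
  obtain ⟨v, Q, hv, hMQ, hfix, σ, h1, h2, h3⟩ := key3R h hLOC hINT hv₁ w M hM
  obtain ⟨b, hb⟩ := hbad v hv
  have hdeg := (h.monic hv.1.1).2
  refine ⟨Lf (P v), {g | g ∉ core S P r} ∪ Φ (P v), Lf_finite _, Lf_normal _, ?_, ?_, ?_, ?_, b,
    ?_⟩
  · have h1 := Lf_finrank hv.1.2.2.1
    rwa [hdeg] at h1
  · rintro g (hg | hg) h
    · left
      intro hc
      apply hg
      have h4 := core_conj h⁻¹ _ hc
      have h5 : h⁻¹ * (h * g * h⁻¹) * h⁻¹⁻¹ = g := by group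
      rwa [h5] at h4
    · exact Or.inr (hΦ.conj _ g h hg)
  · rintro g (hg | hg) t ht
    · left
      intro hc
      apply hg
      have ht' : t ∈ core S P r :=
        fix_le_core hv fun x hx => ht x (mem_Lf hv.1.2.1.ne_zero hx)
      have h4 := (core S P r).mul_mem hc ((core S P r).inv_mem ht')
      rwa [mul_inv_cancel_right] at h4
    · exact Or.inr (hΦ.mul _ g t hg fun x hx => ht x (mem_Lf hv.1.2.1.ne_zero hx))
  · intro g
    by_cases hg : g ∈ core S P r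
    · have hσw : w⁻¹ * σ ∈ core S P r := fix_le_core hv₁ fun x hx => by
        rw [AlgEquiv.mul_apply, h2 x hx, ← AlgEquiv.mul_apply, inv_mul_cancel, AlgEquiv.one_apply]
      have hσc : σ ∈ core S P r := by
        have h4 := (core S P r).mul_mem hwc hσw
        rwa [mul_inv_cancel_left] at h4
      obtain ⟨t, ht, hta⟩ := hfix (σ⁻¹ * g)
        ((core S P r).mul_mem ((core S P r).inv_mem hσc) hg)
      have hσΦ : σ ∈ Φ (P v) := by
        refine hΦ.trans _ _ _ h3 ?_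
        have e : σ = w * (w⁻¹ * σ) := by group
        rw [e]
        refine hΦ.mul _ _ _ hw fun x hx => ?_
        rw [AlgEquiv.mul_apply, h2 x hx, ← AlgEquiv.mul_apply, inv_mul_cancel, AlgEquiv.one_apply]
      refine ⟨g⁻¹ * (σ * t), fun x hx => ?_, Or.inr ?_⟩
      · rw [AlgEquiv.mul_apply, AlgEquiv.mul_apply, hta x (hMQ hx), ← AlgEquiv.mul_apply σ,
          mul_inv_cancel_left, ← AlgEquiv.mul_apply, inv_mul_cancel, AlgEquiv.one_apply]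
      · rw [mul_inv_cancel_left]
        exact hΦ.mul _ _ _ hσΦ ht
    · exact ⟨1, fun x _ => rfl, Or.inl (by rwa [mul_one])⟩
  · intro ℓ hℓ hbℓ σ hσ
    rintro (hc | hc)
    · exact hc (hBadc ℓ hℓ σ hσ)
    · exact hb ℓ hℓ hbℓ σ hσ hc

/-- the primes where a type does not occur have density zero -/
theorem densityC_typ (h : SetupG K Γ s N wt c r S P ρ) (hLOC : S_LOC) (hINT : S_INT)
    (hDENS2 : S_DENS2) (hCF : S_CF)
    (R : Set (Fin N → ℤ)) (a : Equiv.Perm (Fin N)) {v₁ : HeightOneSpectrum (𝓞 K)}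
    (hv₁ : GoodPl S P r v₁) {w : GK ℚ} (hw : w ∈ Typ R a (P v₁)) (hwc : w ∈ core S P r) :
    Pool.Agent.Y142.ZI.DensityZero
      {ℓ | ∃ _ : Fact ℓ.Prime, InCore S P r ℓ ∧ ¬ LocTyp S P r ℓ R a} := by
  refine densityC h hLOC hINT hDENS2 (typ_isClass R a) hv₁ hw hwc _
    (fun ℓ hℓ => hℓ.1.out) (fun ℓ hℓ => hℓ.2.1) fun v hv => ?_
  obtain ⟨b, hb⟩ := hCF (P v) (h.monic hv.1.1).1 hv.1.2.2.1
  refine ⟨max b (Ideal.absNorm v.asIdeal), ?_⟩
  rintro ℓ ⟨hp, -, hno⟩ hbℓ σ hσ hmem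
  apply hno
  obtain ⟨ι, τ, σ', -, hτ, hσ'⟩ := hb ℓ ((le_max_left _ _).trans_lt hbℓ) hp σ hσ
  obtain ⟨x, hinj, hx, hR, hxa⟩ := hmem
  refine ⟨v, hv, not_mem_of_lt v hp.out ((le_max_right _ _).trans_lt hbℓ), τ, fun i => ι (x i),
    ι.injective.comp hinj, fun i => push_root ℓ ι (hx i), ?_, fun i => ?_⟩
  · rw [mrel_map, hR]
  · rw [hτ, hσ' _ (hx i), hxa]

theorem densityC_spl (h : SetupG K Γ s N wt c r S P ρ) (hLOC : S_LOC) (hINT : S_INT)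
    (hDENS2 : S_DENS2) (hSPL : S_SPL)
    (R : Set (Fin N → ℤ)) {v₁ : HeightOneSpectrum (𝓞 K)}
    (hv₁ : GoodPl S P r v₁) {w : GK ℚ} (hw : w ∈ Typ R 1 (P v₁)) (hwc : w ∈ core S P r) :
    Pool.Agent.Y142.ZI.DensityZero
      {ℓ | ∃ _ : Fact ℓ.Prime, InCore S P r ℓ ∧ ¬ SplTyp (N := N) S P r ℓ R} := by
  refine densityC h hLOC hINT hDENS2 (typ_isClass R 1) hv₁ hw hwc _
    (fun ℓ hℓ => hℓ.1.out) (fun ℓ hℓ => hℓ.2.1) fun v hv => ?_
  obtain ⟨b, hb⟩ := hSPL (P v) (h.monic hv.1.1).1 hv.1.2.2.1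
  refine ⟨max b (Ideal.absNorm v.asIdeal), ?_⟩
  rintro ℓ ⟨hp, -, hno⟩ hbℓ σ hσ hmem
  apply hno
  obtain ⟨x, hinj, hx, hR, hxa⟩ := hmem
  have hfix : ∀ y : QQ, aeval y (P v) = 0 → σ y = y := by
    intro y hy
    obtain ⟨i, rfl⟩ := exhaust (h.monic hv.1.1).1.ne_zero (h.monic hv.1.1).2 hinj hx hy
    exact hxa i
  have hsplit := hb ℓ ((le_max_left _ _).trans_lt hbℓ) hp σ hσ hfix
  obtain ⟨ι⟩ := emb ℓ
  have hQ0 : (P v).map (algebraMap ℚ ℚ_[ℓ]) ≠ 0 := ((h.monic hv.1.1).1.map _).ne_zero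
  have hw : ∀ i, ∃ y : ℚ_[ℓ], algebraMap ℚ_[ℓ] (AlgebraicClosure ℚ_[ℓ]) y = ι (x i) := by
    intro i
    have h1 := push_root ℓ ι (hx i)
    have h2 : ι (x i) ∈ (((P v).map (algebraMap ℚ ℚ_[ℓ])).map
        (algebraMap ℚ_[ℓ] (AlgebraicClosure ℚ_[ℓ]))).roots := by
      rw [mem_roots ((Polynomial.map_ne_zero_iff
        (algebraMap ℚ_[ℓ] (AlgebraicClosure ℚ_[ℓ])).injective).2 hQ0), IsRoot.def,
        eval_map_algebraMap]
      exact h1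
    rw [hsplit.roots_map] at h2
    obtain ⟨y, -, hy⟩ := Multiset.mem_map.1 h2
    exact ⟨y, hy⟩
  choose y hy using hw
  have hyf : (fun i => algebraMap ℚ_[ℓ] (AlgebraicClosure ℚ_[ℓ]) (y i)) = fun i => ι (x i) :=
    funext hy
  refine ⟨v, hv, not_mem_of_lt v hp.out ((le_max_right _ _).trans_lt hbℓ), y, ?_, fun i => ?_, ?_⟩
  · intro i j hij
    apply hinj
    apply ι.injective
    rw [← hy, ← hy, hij]
  · apply (algebraMap ℚ_[ℓ] (AlgebraicClosure ℚ_[ℓ])).injective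
    rw [map_zero, ← aeval_algebraMap_apply, hy]
    exact push_root ℓ ι (hx i)
  · rw [← mrel_map (algebraMap ℚ_[ℓ] (AlgebraicClosure ℚ_[ℓ])) y, hyf, mrel_map, hR]

/-- the local types -/
theorem typesC (h : SetupG K Γ s N wt c r S P ρ) (R : Set (Fin N → ℤ)) (hR : RankGE r R)
    {T : Set (Equiv.Perm (Fin N))} (hne : T.Nonempty)
    (hT : ∀ a ∈ T, ∃ (p : ℕ) (_ : Fact p.Prime) (τ : Gal(PadicAlgCl p/ℚ_[p]))
      (σ σ' : Gal(AlgebraicClosure K/K)), HasType (ρ p) (s σ) R τ a ∧ HasType (ρ p) (s σ') R τ 1) :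
    T ⊆ relAut R ∧ (∃ v, GoodPl S P r v) ∧
      Pool.Agent.Y142.ZI.DensityZero {ℓ | ∃ _ : Fact ℓ.Prime, InCore S P r ℓ ∧
        ¬ (SplTyp (N := N) S P r ℓ R ∧ ∀ a ∈ T, LocTyp S P r ℓ R a)} := by
  classical
  have hINT : S_INT := Y484.ZI.t1
  have hCHEB : S_CHEB := Y726.ZI.t1
  have hDENS2 : S_DENS2 := Y681.ZI.t hCHEB
  have hLF : S_LF := Y255.SS.t
  have hCF : S_CF := Y297.SS.t hLF
  have hLOC : S_LOC := Y708.SS.Loc.t hCF
  have hSPL : S_SPL := Y674.ZS.t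
  have hglob : ∀ a ∈ T, ∃ σ₀ : GK ℚ, σ₀ ∈ core S P r ∧ (∃ v, GoodPl S P r v ∧
      σ₀ ∈ Typ R a (P v)) ∧ ∃ v, GoodPl S P r v ∧ σ₀ ∈ Typ R 1 (P v) := by
    intro a ha
    obtain ⟨p, hp, τ, σ, σ', h1, h2⟩ := hT a ha
    obtain ⟨σ₀, hσ₀⟩ := ZM.main_local h R hR {a, 1} p τ (by
      intro a' ha'
      rw [Set.mem_insert_iff, Set.mem_singleton_iff] at ha'
      rcases ha' with rfl | rfl
      exacts [⟨σ, h1⟩, ⟨σ', h2⟩])
    obtain ⟨v, hv, hw⟩ := hσ₀ 1 (Set.mem_insert_of_mem _ rfl)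
    refine ⟨σ₀, fix_le_core hv ?_, hσ₀ a (Set.mem_insert _ _), v, hv, hw⟩
    obtain ⟨x, hinj, hx, -, hxa⟩ := hw
    intro y hy
    obtain ⟨i, rfl⟩ := exhaust (h.monic hv.1.1).1.ne_zero (h.monic hv.1.1).2 hinj hx hy
    exact hxa i
  have hTA : T ⊆ relAut R := fun a ha => by
    obtain ⟨σ₀, -, ⟨v, hv, hw⟩, -⟩ := hglob a ha
    exact typ_mem_aut hw
  let _ : Fintype T := Fintype.ofFinite T
  -- the bad primes
  have hbad1 : ∀ a : T, Pool.Agent.Y142.ZI.DensityZero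
      {ℓ | ∃ _ : Fact ℓ.Prime, InCore S P r ℓ ∧ ¬ LocTyp S P r ℓ R a} := by
    rintro ⟨a, ha⟩
    obtain ⟨σ₀, hc, ⟨v, hv, hw⟩, -⟩ := hglob a ha
    exact densityC_typ h hLOC hINT hDENS2 hCF R a hv hw hc
  obtain ⟨a₀, ha₀⟩ := hne
  obtain ⟨w₀, hc₀, -, v₀, hv₀, hw₀⟩ := hglob a₀ ha₀
  have hbad2 := densityC_spl h hLOC hINT hDENS2 hSPL R hv₀ hw₀ hc₀
  have hbad3 : ∀ A : Finset T, Pool.Agent.Y142.ZI.DensityZero
      (⋃ a ∈ A, {ℓ | ∃ _ : Fact ℓ.Prime, InCore S P r ℓ ∧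
        ¬ LocTyp S P r ℓ R (a : Equiv.Perm (Fin N))}) := by
    intro A
    induction A using Finset.induction_on with
    | empty =>
      simp only [Finset.notMem_empty, Set.iUnion_of_empty, Set.iUnion_empty]
      exact densityZero_finite Set.finite_empty
    | insert a A _ ih =>
      rw [Finset.set_biUnion_insert]
      exact (hbad1 a).union ih
  refine ⟨hTA, ⟨v₀, hv₀⟩, Y142.ZI.DensityZero.mono ((hbad3 Finset.univ).union hbad2) ?_⟩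
  rintro ℓ ⟨hp, hcore, hno⟩
  by_contra hnot
  rw [Set.mem_union, not_or] at hnot
  obtain ⟨hn1, hn2⟩ := hnot
  apply hno
  constructor
  · by_contra hcon
    exact hn2 ⟨hp, hcore, hcon⟩
  · intro a ha
    by_contra hcon
    exact hn1 (Set.mem_iUnion₂.2 ⟨⟨a, ha⟩, Finset.mem_univ _, hp, hcore, hcon⟩)

end

end Pool.Agent.R931.PD
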