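import Mathlib
import Pool.Agent.R931.PD.Endo

/-!
# Semisimplicity, and the group of the labels
-/

set_option autoImplicit false
set_option linter.unusedSectionVars false

namespace Pool.Agent.R931.PD

open Function Polynomial Module NumberField IsDedekindDomain Pool.Agent.TH118.SG
  Pool.Agent.Y114.RM Pool.Agent.Y114.MU Pool.Agent.Y114.TF Pool.Agent.Y114.GF
  Pool.Agent.H204R3.GP Pool.Agent.R931.GD Pool.Agent.Y142.ZO Pool.Agent.Y142.ZI
  Pool.Agent.Y142.SS Pool.Agent.R931.BD Pool.Agent.R931.ZL Pool.Agent.R931.ZM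
open Pool.Agent.Y142.ZD (DistPow dist_of_nice)
open Pool.Agent.Y142.ZS (NiceP nice_of_p)
open Pool.Agent.Y497.ZO (Mt Aj)
open Pool.Agent.Y936.SS (Om)

theorem dual_rel {N : ℕ} {F : Type} [Field F] (x : Fin N → F) (hx0 : ∀ i, x i ≠ 0) {q : F}
    (hq : q ≠ 0) {i i' j j' : Fin N} (hi : x i' * x i = q) (hj : x j' * x j = q) :
    Pi.single i 1 + Pi.single i' 1 - Pi.single j 1 - Pi.single j' 1 ∈ relations x := by
  classical
  have h1 : ∀ k : Fin N, ∏ l, x l ^ (Pi.single k (1 : ℤ) : Fin N → ℤ) l = x k := by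
    intro k
    rw [Finset.prod_eq_single k]
    · rw [Pi.single_eq_same, zpow_one]
    · intro l _ hl
      rw [Pi.single_eq_of_ne hl, zpow_zero]
    · intro hk
      exact absurd (Finset.mem_univ k) hk
  refine ⟨1, one_pos, ?_⟩
  rw [pow_one]
  have h2 : ∀ l, x l ^ (Pi.single i 1 + Pi.single i' 1 - Pi.single j 1 - Pi.single j' 1 :
      Fin N → ℤ) l = x l ^ (Pi.single i (1 : ℤ) : Fin N → ℤ) l *
      x l ^ (Pi.single i' (1 : ℤ) : Fin N → ℤ) l * (x l ^ (Pi.single j (1 : ℤ) : Fin N → ℤ) l)⁻¹ *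
      (x l ^ (Pi.single j' (1 : ℤ) : Fin N → ℤ) l)⁻¹ := by
    intro l
    rw [Pi.sub_apply, Pi.sub_apply, Pi.add_apply, zpow_sub₀ (hx0 l), zpow_sub₀ (hx0 l),
      zpow_add₀ (hx0 l), div_eq_mul_inv, div_eq_mul_inv]
  rw [Finset.prod_congr rfl fun l _ => h2 l, Finset.prod_mul_distrib, Finset.prod_mul_distrib,
    Finset.prod_mul_distrib, Finset.prod_inv_distrib, Finset.prod_inv_distrib, h1, h1, h1, h1,
    mul_comm (x i), hi, mul_assoc, ← mul_inv, mul_comm (x j), hj, mul_inv_cancel₀ hq]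

section

variable {K : Type} [Field K] [NumberField K] {Γ : Type} [Group Γ] [TopologicalSpace Γ]
  [IsTopologicalGroup Γ] [CompactSpace Γ] {s : Gal(AlgebraicClosure K/K) →* Γ} {N : ℕ} {wt : ℤ}
  {c r : ℕ} {S : Set (HeightOneSpectrum (𝓞 K))} {P : HeightOneSpectrum (𝓞 K) → ℚ[X]}
  {ρ : ∀ (ℓ : ℕ) [Fact ℓ.Prime], Rep1 Γ N ℓ}

/-- The permutation `c` is a duality: the products `z_i * z_{c(i)}` are equal up to roots of unity. -/
def IsDuality (R : Set (Fin N → ℤ)) (c : Equiv.Perm (Fin N)) : Prop :=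
  ∀ i j, Pi.single i 1 + Pi.single (c i) 1 - Pi.single j 1 - Pi.single (c j) 1 ∈ R

theorem semiH (h : SetupG K Γ s N wt c r S P ρ) {ℓ : ℕ} [Fact ℓ.Prime] {R : Set (Fin N → ℤ)}
    {v₁ : HeightOneSpectrum (𝓞 K)} {γ₁ : Γ} {x : Fin N → ℚ_[ℓ]}
    {b : Basis (Fin N) ℚ_[ℓ] (∀ _ : Unit, Fin N → ℚ_[ℓ])} {f₁ : ℚ_[ℓ][X]}
    (hs : SplitDat ρ s S P r ℓ R v₁ γ₁ x b f₁) {H : Subgroup (Equiv.Perm (Fin N))}
    (hH : Labels ρ ℓ b H) (hdu : ∀ c, IsDuality R c → ∀ i, ∃ a ∈ H, a i = c i)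
    (hpol : Polarized (ρ ℓ)) : Semisimple (ρ ℓ) := by
  classical
  obtain ⟨a, ha, hax⟩ := dual_perm h hs.good hs.xinj hs.xroot hs.rel
  set q₁ : ℚ_[ℓ] := (((q v₁ : ℚ) ^ wt : ℚ) : ℚ_[ℓ]) with hq₁
  obtain ⟨B₀, hB₀, hsym, hsim⟩ := hpol.bilin
  let B : LinearMap.BilinForm ℚ_[ℓ] (∀ _ : Unit, Fin N → ℚ_[ℓ]) :=
    B₀.compl₁₂ (LinearMap.proj ()) (LinearMap.proj ())
  have hB : ∀ x y, B x y = B₀ (x ()) (y ()) := fun x y => rfl
  have hrefl : B.IsRefl := by
    intro x y hxy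
    rw [hB] at hxy ⊢
    rcases hsym with h1 | h1
    · rw [h1]
      exact hxy
    · have h2 := h1 (x () + y ())
      rw [map_add, LinearMap.map_add₂, LinearMap.map_add₂, h1, h1, hxy, zero_add, zero_add,
        add_zero] at h2
      exact h2
  have hnd : ∀ x, (∀ y, B x y = 0) → x = 0 := by
    intro x hx
    funext u
    cases u
    exact hB₀ _ fun y => hx fun _ => y
  have hsimB : ∀ γ, ∃ c, ∀ x y, B (sumRep (ρ ℓ) γ x) (sumRep (ρ ℓ) γ y) = c * B x y := by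
    intro γ
    obtain ⟨c, hc⟩ := hsim γ
    exact ⟨c, fun x y => hc _ _⟩
  obtain ⟨c₁, hc₁⟩ := hsimB γ₁
  have hne : ∀ i j, B (b i) (b j) ≠ 0 → x i * x j = c₁ := by
    intro i j hij
    have h1 := hc₁ (b i) (b j)
    rw [hs.eig, hs.eig, map_smul, LinearMap.map_smul₂, smul_eq_mul, smul_eq_mul,
      ← mul_assoc, mul_comm (x j)] at h1
    exact mul_right_cancel₀ hij h1
  have hex : ∀ i, ∃ j, B (b i) (b j) ≠ 0 := by
    intro i
    by_contra hno
    push Not at hno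
    refine b.ne_zero i (hnd _ fun y => ?_)
    rw [← b.sum_repr y, map_sum]
    exact Finset.sum_eq_zero fun j _ => by rw [map_smul, hno, smul_zero]
  have hx0 : ∀ i, x i ≠ 0 := by
    intro i h0
    have h1 := ne_zero_of_root (ρ ℓ) γ₁ (hs.log.zroot i)
    exact h1 (by rw [h0, map_zero])
  have hN : 0 < N := h.pos
  have hdual' : ∀ i, ∃ a' ∈ H, a' i = a i := by
    refine hdu a fun i j => ?_
    rw [← hs.rel]
    have hq0 : q₁ ≠ 0 := by
      rw [← hax i]
      exact mul_ne_zero (hx0 _) (hx0 _)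
    exact dual_rel x hx0 hq0 (hax i) (hax j)
  have hpow : c₁ ^ N = q₁ ^ N := by
    choose ψ hψ using hex
    have hψx : ∀ i, x i * x (ψ i) = c₁ := fun i => hne i _ (hψ i)
    have hψinj : Injective ψ := by
      intro i j hij
      apply hs.xinj
      have h1 := hψx i
      rw [hij, ← hψx j] at h1
      exact mul_right_cancel₀ (hx0 _) h1
    have hψb : Bijective ψ := Finite.injective_iff_bijective.1 hψinj
    have e1 : ∏ i, x (ψ i) = ∏ i, x i := hψb.prod_comp x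
    have e2 : ∏ i, x (a i) = ∏ i, x i := Equiv.prod_comp a x
    have h1 : ∏ i, (x i * x (ψ i)) = c₁ ^ N := by
      rw [Finset.prod_congr rfl fun i _ => hψx i, Finset.prod_const, Finset.card_univ,
        Fintype.card_fin]
    have h2 : ∏ i, (x (a i) * x i) = q₁ ^ N := by
      rw [Finset.prod_congr rfl fun i _ => hax i, Finset.prod_const, Finset.card_univ,
        Fintype.card_fin]
    rw [← h1, ← h2, Finset.prod_mul_distrib, Finset.prod_mul_distrib, e1, e2]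
  have hdual : ∀ i j, B (b i) (b j) ≠ 0 → j = a i := by
    intro i j hij
    apply hs.xinj
    have h1 : x j ^ N = x (a i) ^ N := by
      have h2 : (x i * x j) ^ N = (x (a i) * x i) ^ N := by
        rw [hne i j hij, hax, hpow]
      rw [mul_pow, mul_pow, mul_comm (x (a i) ^ N)] at h2
      exact mul_left_cancel₀ (pow_ne_zero _ (hx0 i)) h2
    have h3 := dist_of_nice hs.good.1 ℓ N (algebraMap ℚ_[ℓ] (AlgebraicClosure ℚ_[ℓ]) (x j))
      (algebraMap ℚ_[ℓ] (AlgebraicClosure ℚ_[ℓ]) (x (a i))) hN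
      (by rw [aeval_algebraMap_apply, hs.xroot, map_zero])
      (by rw [aeval_algebraMap_apply, hs.xroot, map_zero])
      (by rw [← map_pow, h1, map_pow])
    exact (algebraMap ℚ_[ℓ] (AlgebraicClosure ℚ_[ℓ])).injective h3
  intro Δ hΔ W hW
  have hWo : ∀ δ ∈ Δ, ∀ y ∈ B.orthogonal W, sumRep (ρ ℓ) δ y ∈ B.orthogonal W := by
    intro δ hδ y hy
    rw [LinearMap.BilinForm.mem_orthogonal_iff] at hy ⊢
    intro w hw
    obtain ⟨c, hc⟩ := hsimB δ
    have h1 := hc (sumRep (ρ ℓ) δ⁻¹ w) y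
    rw [← Module.End.mul_apply, ← map_mul, mul_inv_cancel, map_one, Module.End.one_apply] at h1
    change B w (sumRep (ρ ℓ) δ y) = 0
    rw [h1, hy _ (hW _ (Δ.inv_mem hδ) w hw), mul_zero]
  refine ⟨B.orthogonal W, hWo, (LinearMap.BilinForm.isCompl_orthogonal_iff_disjoint hrefl).2 ?_⟩
  rw [Submodule.disjoint_def]
  intro u hu hu'
  by_contra hu0
  obtain ⟨i, hi⟩ : ∃ i, b.repr u i ≠ 0 := by
    by_contra hno
    push Not at hno
    apply hu0
    rw [← b.sum_repr u]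
    exact Finset.sum_eq_zero fun j _ => by rw [hno j, zero_smul]
  have hyinj : Injective fun i => aeval (x i) f₁ := by
    intro i j hij
    apply hs.log.yinj
    change aeval (algebraMap ℚ_[ℓ] (Om ℓ) (x i)) f₁ = aeval (algebraMap ℚ_[ℓ] (Om ℓ) (x j)) f₁
    rw [aeval_algebraMap_apply, aeval_algebraMap_apply]
    exact congrArg _ hij
  have hXb : ∀ i, lin (aeval (matRep (ρ ℓ) γ₁) f₁) (b i) = aeval (x i) f₁ • b i := by
    intro i
    rw [lin_aeval, ← ZL.sumRep_eq]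
    exact aeval_basis b hs.eig f₁ i
  have h1 : b i ∈ W := comp_mem b hyinj hXb W (hs.log.stab hΔ hW) hu hi
  have h2 : b i ∈ B.orthogonal W := comp_mem b hyinj hXb _ (hs.log.stab hΔ hWo) hu' hi
  obtain ⟨a', ha', hai⟩ := hdual' i
  have h3 : b (a i) ∈ W := by
    rw [← hai]
    exact (hH Δ hΔ W hW a' ha' i).2 h1
  rw [LinearMap.BilinForm.mem_orthogonal_iff] at h2
  refine b.ne_zero i (hnd _ fun y => ?_)
  rw [← b.sum_repr y, map_sum]
  refine Finset.sum_eq_zero fun j _ => ?_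
  rw [map_smul]
  by_cases hj : B (b i) (b j) = 0
  · rw [hj, smul_zero]
  · have h4 := hdual i j hj
    rw [h4]
    have h5 : B (b i) (b (a i)) = 0 := hrefl _ _ (h2 _ h3)
    rw [h5, smul_zero]

end

end Pool.Agent.R931.PD
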