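import Mathlib
import Pool.Agent.R931.PD.Semi
import Pool.Agent.R931.PD.Key
import Pool.Agent.R931.PD.Frob

/-!
# The law for the primes which split in a number field
-/

set_option autoImplicit false
set_option linter.unusedSectionVars false
set_option linter.unusedVariables false

namespace Pool.Agent.R931.PD

open Function Polynomial Module NumberField IsDedekindDomain Pool.Agent.TH118.SG
  Pool.Agent.Y114.RM Pool.Agent.Y114.MU Pool.Agent.Y114.TF Pool.Agent.Y114.GF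
  Pool.Agent.H204R3.GP Pool.Agent.R931.GD Pool.Agent.Y142.ZO Pool.Agent.Y142.ZI
  Pool.Agent.Y142.SS Pool.Agent.R931.BD Pool.Agent.R931.ZL Pool.Agent.R931.ZM
open Pool.Agent.Y142.ZD (DistPow dist_of_nice)
open Pool.Agent.Y142.ZS (NiceP nice_of_p S_SPL)
open Pool.Agent.Y936.SS (Om)

section

variable {K : Type} [Field K] [NumberField K] {Γ : Type} [Group Γ] [TopologicalSpace Γ]
  [IsTopologicalGroup Γ] [CompactSpace Γ] {s : Gal(AlgebraicClosure K/K) →* Γ} {N : ℕ} {wt : ℤ}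
  {c r : ℕ} {S : Set (HeightOneSpectrum (𝓞 K))} {P : HeightOneSpectrum (𝓞 K) → ℚ[X]}
  {ρ : ∀ (ℓ : ℕ) [Fact ℓ.Prime], Rep1 Γ N ℓ}

/-- the primes modulo which a polynomial splits -/
theorem exists_poly {v : HeightOneSpectrum (𝓞 K)} (hv : GoodPl S P r v) :
    ∃ f : ℤ[X], f.Monic ∧ ∃ b : ℕ, ∀ ℓ : ℕ, b < ℓ → ∀ _ : Fact ℓ.Prime,
      (f.map (Int.castRingHom (ZMod ℓ))).Splits → InCore S P r ℓ := by
  have hINT : S_INT := Y484.ZI.t1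
  obtain ⟨f, hf, hMf, b, hb⟩ := hINT (Lf (P v)) (Lf_finite _)
  refine ⟨f, hf, b, fun ℓ hℓ hp hspl σ hσ => fix_le_core hv fun x hx => ?_⟩
  have h1 : x ∈ IntermediateField.adjoin ℚ {x : QQ | aeval x f = 0} :=
    hMf (mem_Lf hv.1.2.1.ne_zero hx)
  refine IntermediateField.adjoin_induction (p := fun x _ => σ x = x) ℚ ?_ ?_ ?_ ?_ ?_ h1
  · intro y hy
    exact frob_fix hf (hb ℓ hℓ hp.out) hspl hσ hy
  · intro y
    exact σ.commutes y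
  · intro y z _ _ hy hz
    rw [map_add, hy, hz]
  · intro y _ hy
    rw [map_inv₀, hy]
  · intro y z _ _ hy hz
    rw [map_mul, hy, hz]

/-- the types imply a statement at almost all primes which split in a number field -/
theorem main_of_local (h : SetupG K Γ s N wt c r S P ρ) (R : Set (Fin N → ℤ)) (hR : RankGE r R)
    {T : Set (Equiv.Perm (Fin N))} (hne : T.Nonempty)
    (hT : ∀ a ∈ T, ∃ (p : ℕ) (_ : Fact p.Prime) (τ : Gal(PadicAlgCl p/ℚ_[p]))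
      (σ σ' : Gal(AlgebraicClosure K/K)), HasType (ρ p) (s σ) R τ a ∧ HasType (ρ p) (s σ') R τ 1)
    (C : ∀ (ℓ : ℕ) [Fact ℓ.Prime], Prop) (B : Set ℕ) (hB : B.Finite)
    (hC : (∃ v, GoodPl S P r v) → ∀ (ℓ : ℕ) [Fact ℓ.Prime], ℓ ∉ B → ∀ v₁ γ₁ x b f₁,
      SplitDat ρ s S P r ℓ R v₁ γ₁ x b f₁ → ∀ H, ConjIn (relAut R) T H → Labels ρ ℓ b H → C ℓ) :
    ∃ f : ℤ[X], f.Monic ∧ HasDensityZero {ℓ | ∃ _ : Fact ℓ.Prime,
      (f.map (Int.castRingHom (ZMod ℓ))).Splits ∧ ¬ C ℓ} := by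
  obtain ⟨hTA, ⟨v₀, hv₀⟩, hd⟩ := typesC h R hR hne hT
  obtain ⟨f, hf, b, hb⟩ := exists_poly hv₀
  refine ⟨f, hf, ?_⟩
  refine Y142.ZI.DensityZero.mono ((hd.union (densityZero_finite (Set.finite_le_nat b))).union
    (densityZero_finite hB)) ?_
  rintro ℓ ⟨hp, hspl, hno⟩
  by_contra hnot
  rw [Set.mem_union, not_or, Set.mem_union, not_or] at hnot
  obtain ⟨⟨hn1, hn2⟩, hn3⟩ := hnot
  have hbℓ : b < ℓ := not_le.1 hn2
  have hcore := hb ℓ hbℓ hp hspl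
  by_cases hloc : SplTyp (N := N) S P r ℓ R ∧ ∀ a ∈ T, LocTyp S P r ℓ R a
  · obtain ⟨v₁, γ₁, x, b', f₁, hs⟩ := h.split ℓ hloc.1
    obtain ⟨H, hH, hlab⟩ := label_group h ℓ hTA hloc.2 hs
    exact hno (hC ⟨v₀, hv₀⟩ ℓ hn3 v₁ γ₁ x b' f₁ hs H hH hlab)
  · exact hn1 ⟨hp, hcore, hloc⟩

/-- semisimplicity -/
theorem main_semiP (h : SetupG K Γ s N wt c r S P ρ)
    (hpol : ∀ (ℓ : ℕ) [Fact ℓ.Prime], Polarized (ρ ℓ))
    (R : Set (Fin N → ℤ)) (hR : RankGE r R)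
    (T : Set (Equiv.Perm (Fin N))) (hne : T.Nonempty)
    (hT : ∀ a ∈ T, ∃ (p : ℕ) (_ : Fact p.Prime) (τ : Gal(PadicAlgCl p/ℚ_[p]))
      (σ σ' : Gal(AlgebraicClosure K/K)), HasType (ρ p) (s σ) R τ a ∧ HasType (ρ p) (s σ') R τ 1)
    (hdu : ∀ H, ConjIn (relAut R) T H → ∀ c, IsDuality R c → ∀ i, ∃ a ∈ H, a i = c i) :
    ∃ f : ℤ[X], f.Monic ∧ HasDensityZero {ℓ | ∃ _ : Fact ℓ.Prime,
      (f.map (Int.castRingHom (ZMod ℓ))).Splits ∧ ¬ Semisimple (ρ ℓ)} :=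
  main_of_local h R hR hne hT (fun ℓ _ => Semisimple (ρ ℓ)) ∅ Set.finite_empty
    fun _ ℓ _ _ v₁ γ₁ x b f₁ hs H hH hlab => semiH h hs hlab (hdu H hH) (hpol ℓ)

/-- endomorphisms and invariant subspaces -/
theorem main_irrP (h : SetupG K Γ s N wt c r S P ρ)
    (R : Set (Fin N → ℤ)) (hR : RankGE r R)
    (T : Set (Equiv.Perm (Fin N))) (hne : T.Nonempty)
    (hT : ∀ a ∈ T, ∃ (p : ℕ) (_ : Fact p.Prime) (τ : Gal(PadicAlgCl p/ℚ_[p]))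
      (σ σ' : Gal(AlgebraicClosure K/K)), HasType (ρ p) (s σ) R τ a ∧ HasType (ρ p) (s σ') R τ 1)
    (m : ℕ) (hm : ∀ H, ConjIn (relAut R) T H → orbitCount H ≤ m) :
    ∃ f : ℤ[X], f.Monic ∧ HasDensityZero {ℓ | ∃ _ : Fact ℓ.Prime,
      (f.map (Int.castRingHom (ZMod ℓ))).Splits ∧ ¬ ∀ Δ : Subgroup Γ, Δ.FiniteIndex →
        centralizerDim (ρ ℓ () '' (Δ : Set Γ)) ≤ m ∧
          (stableSubspaces (ρ ℓ) Δ).encard ≤ 2 ^ m} :=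
  main_of_local h R hR hne hT (fun ℓ _ => ∀ Δ : Subgroup Γ, Δ.FiniteIndex →
        centralizerDim (ρ ℓ () '' (Δ : Set Γ)) ≤ m ∧
          (stableSubspaces (ρ ℓ) Δ).encard ≤ 2 ^ m) ∅ Set.finite_empty
    fun _ ℓ _ _ v₁ γ₁ x b f₁ hs H hH hlab Δ hΔ => by
      refine ⟨?_, (stable_le hs hlab hΔ).trans (pow_le_pow_right₀ one_le_two (hm H hH))⟩
      rw [centralizerDim_eq]
      exact (com_le hs hlab hΔ).trans (hm H hH)

/-- the endomorphisms are fixed by `𝔤` if there are enough of them -/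
theorem endos_of_dim {ℓ : ℕ} [Fact ℓ.Prime] {𝔤 : End1 N ℓ} (hmot : Motivic (ρ ℓ) 𝔤) {m : ℕ}
    (hcom : ∀ Δ : Subgroup Γ, Δ.FiniteIndex → finrank ℚ_[ℓ] (comS ρ ℓ Δ) ≤ m)
    (hend : m ≤ commutantDim 𝔤) :
    EndosFixed (sumRep (ρ ℓ))
      (show Submodule ℚ_[ℓ] (End ℚ_[ℓ] (∀ _ : Unit, Fin N → ℚ_[ℓ])) from 𝔤) := by
  classical
  set 𝔤' : Submodule ℚ_[ℓ] (End ℚ_[ℓ] (∀ _ : Unit, Fin N → ℚ_[ℓ])) := 𝔤 with h𝔤'
  obtain ⟨Z, hZ, hZdim⟩ : ∃ Z : Submodule ℚ_[ℓ] (End ℚ_[ℓ] (∀ _ : Unit, Fin N → ℚ_[ℓ])),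
      (∀ Y, Y ∈ Z ↔ ∀ X ∈ 𝔤', X * Y = Y * X) ∧ m ≤ finrank ℚ_[ℓ] Z := by
    refine ⟨Subalgebra.toSubmodule (Subalgebra.centralizer ℚ_[ℓ]
      {X : End ℚ_[ℓ] (∀ _ : Unit, Fin N → ℚ_[ℓ]) | X ∈ 𝔤'}), fun Y => ?_, hend⟩
    rw [Subalgebra.mem_toSubmodule, Subalgebra.mem_centralizer_iff]
    rfl
  rintro Y ⟨Δ, hΔ, hY⟩ X hX
  have hfin : FiniteDimensional ℚ_[ℓ] (End ℚ_[ℓ] (∀ _ : Unit, Fin N → ℚ_[ℓ])) := inferInstance
  have hfinZ : FiniteDimensional ℚ_[ℓ] Z := FiniteDimensional.finiteDimensional_submodule Z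
  have hfree : Module.Free ℚ_[ℓ] Z := Module.Free.of_divisionRing ℚ_[ℓ] Z
  let β := Module.finBasis ℚ_[ℓ] Z
  have h1 : ∀ j, ∃ Δ : Subgroup Γ, Δ.FiniteIndex ∧ ∀ g ∈ Δ,
      sumRep (ρ ℓ) g * (β j : End ℚ_[ℓ] (∀ _ : Unit, Fin N → ℚ_[ℓ])) = β j * sumRep (ρ ℓ) g :=
    fun j => comm_tate (sumRep (ρ ℓ)) (𝔤 := 𝔤') (fun m φ hφ => hmot.tate m φ hφ)
      ((hZ _).1 (β j).2)
  choose D hD1 hD2 using h1
  let Δ' : Subgroup Γ := Δ ⊓ ⨅ j, D j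
  have hΔ' : Δ'.FiniteIndex := by
    have := hΔ
    have := hD1
    have h2 : (⨅ j, D j).FiniteIndex := Subgroup.finiteIndex_iInf hD1
    exact inferInstance
  have hle : Z ≤ comS ρ ℓ Δ' := by
    intro W hW γ hγ
    have hγj : ∀ j, γ ∈ D j := fun j => (Subgroup.mem_iInf.1 hγ.2) j
    have h3 : (⟨W, hW⟩ : Z) = ∑ j, β.repr ⟨W, hW⟩ j • β j := (β.sum_repr _).symm
    have h4 : W = ∑ j, β.repr ⟨W, hW⟩ j • (β j : End ℚ_[ℓ] (∀ _ : Unit, Fin N → ℚ_[ℓ])) := by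
      have h5 := congrArg (fun z : Z => (z : End ℚ_[ℓ] (∀ _ : Unit, Fin N → ℚ_[ℓ]))) h3
      simpa only [Submodule.coe_sum, Submodule.coe_smul] using h5
    rw [h4, Finset.mul_sum, Finset.sum_mul]
    refine Finset.sum_congr rfl fun j _ => ?_
    rw [mul_smul_comm, smul_mul_assoc, hD2 j γ (hγj j)]
  have heq : Z = comS ρ ℓ Δ' :=
    Submodule.eq_of_le_of_finrank_le hle ((hcom Δ' hΔ').trans hZdim)
  refine (hZ Y).1 ?_ X hX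
  rw [heq]
  exact fun γ hγ => hY γ hγ.1

/-- the Mumford-Tate conjecture -/
theorem main_MT (h : SetupG K Γ s N wt c r S P ρ)
    {𝔤 : ∀ (ℓ : ℕ) [Fact ℓ.Prime], End1 N ℓ}
    (hmot : ∀ (ℓ : ℕ) [Fact ℓ.Prime], Motivic (ρ ℓ) (𝔤 ℓ))
    (hrk : ∀ (ℓ : ℕ) [Fact ℓ.Prime], RankLE (𝔤 ℓ) r) (hK : HasGoodPrime S P r)
    (R : Set (Fin N → ℤ)) (hR : RankGE r R)
    (T : Set (Equiv.Perm (Fin N))) (hne : T.Nonempty)
    (hT : ∀ a ∈ T, ∃ (p : ℕ) (_ : Fact p.Prime) (τ : Gal(PadicAlgCl p/ℚ_[p]))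
      (σ σ' : Gal(AlgebraicClosure K/K)), HasType (ρ p) (s σ) R τ a ∧ HasType (ρ p) (s σ') R τ 1)
    (m : ℕ) (hm : ∀ H, ConjIn (relAut R) T H → orbitCount H ≤ m)
    (hend : ∀ (ℓ : ℕ) [Fact ℓ.Prime], m ≤ commutantDim (𝔤 ℓ)) :
    ∃ f : ℤ[X], f.Monic ∧ HasDensityZero {ℓ | ∃ _ : Fact ℓ.Prime,
      (f.map (Int.castRingHom (ZMod ℓ))).Splits ∧
        ¬ (Semisimple (ρ ℓ) ∧ TateTensorsOf (ρ ℓ) (𝔤 ℓ))} := by
  classical
  obtain ⟨p₀, hp₀⟩ : ∃ p₀ : ℕ, (∃ v, GoodPl S P r v) → p₀.Prime ∧ UnramifiedIn K p₀ ∧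
      (∀ v, Above v p₀ → v ∉ S) ∧ IndependentPlaces (fun v (_ : Unit) => P v) p₀ ∧
        ∃ v, Above v p₀ ∧ IndepRoots r {P v} := by
    by_cases hex : ∃ v, GoodPl S P r v
    · rcases hK with hK | hK
      · obtain ⟨v, hv⟩ := hex
        obtain ⟨p, hp, hpv⟩ := exists_prime' v
        exact ⟨p, fun _ => ⟨hp, unramified_one hK hp, fun v' hv' => by
          rw [(above_iff_one hK hp hpv v').1 hv']
          exact hv.1.1, independentPlaces_of_one _ (above_iff_one hK hp hpv), v, hpv, hv.2⟩⟩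
      · obtain ⟨p, hp⟩ := hK
        exact ⟨p, fun _ => hp⟩
    · exact ⟨0, fun h => absurd h hex⟩
  refine main_of_local h R hR hne hT
    (fun ℓ _ => Semisimple (ρ ℓ) ∧ TateTensorsOf (ρ ℓ) (𝔤 ℓ)) {p₀} (Set.finite_singleton p₀) ?_
  intro hex ℓ _ hℓ v₁ γ₁ x b f₁ hs H hH hlab
  obtain ⟨hp, hunr, hpS, hind, v₀, hv₀, hr⟩ := hp₀ hex
  exact full_place s h.cont_s (fun _ => wt) S h.fin (fun v _ => P v) ℓ (ρ ℓ) (h.cont ℓ)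
    (fun v hv hvℓ _ => h.good ℓ v hv hvℓ) _ (hmot ℓ) r (hrk ℓ) hp (fun he => hℓ he.symm)
    hunr hpS hind hv₀ (independentRoots_one hr)
    (endos_of_dim (hmot ℓ) (fun Δ hΔ => (comS_le hs hlab hΔ).trans (hm H hH)) (hend ℓ))

end

end Pool.Agent.R931.PD
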