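import Mathlib
import Pool.Agent.R931.PD.Fin

/-!
# The zero-one law for sums of motives
-/

set_option autoImplicit false
set_option linter.unusedSectionVars false
set_option linter.unusedVariables false

namespace Pool.Agent.R931.PD

open Function Polynomial Module NumberField IsDedekindDomain Pool.Agent.TH118.SG
  Pool.Agent.Y114.RM Pool.Agent.Y114.MU Pool.Agent.Y114.TF Pool.Agent.Y114.GF
  Pool.Agent.H204R3.GP Pool.Agent.R931.GD Pool.Agent.Y142.ZO Pool.Agent.Y142.ZI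
  Pool.Agent.Y142.SS Pool.Agent.R931.BD Pool.Agent.R931.ZL Pool.Agent.R931.ZM
open Pool.Agent.Y142.ZD (DistPow dist_of_nice)
open Pool.Agent.Y142.ZS (NiceP nice_of_p S_SPL)
open Pool.Agent.Y936.SS (Om)

section

variable {K : Type} [Field K] [NumberField K] {Γ : Type} [Group Γ] [TopologicalSpace Γ]
  [IsTopologicalGroup Γ] [CompactSpace Γ] {s : Gal(AlgebraicClosure K/K) →* Γ} {N : ℕ} {wt : ℤ}
  {c r : ℕ} {S : Set (HeightOneSpectrum (𝓞 K))} {P : HeightOneSpectrum (𝓞 K) → ℚ[X]}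
  {ρ : ∀ (ℓ : ℕ) [Fact ℓ.Prime], Rep1 Γ N ℓ} {𝔤 : ∀ (ℓ : ℕ) [Fact ℓ.Prime], End1 N ℓ}

theorem splitZ (h : Setup K Γ s N wt c r S P ρ 𝔤) (ℓ : ℕ) [Fact ℓ.Prime]
    {R : Set (Fin N → ℤ)} (hspl : SplTyp S P r ℓ R) :
    ∃ v γ x b f, SplitDat ρ s S P r ℓ R v γ x b f := by
  obtain ⟨v, hv, hvℓ, x, hxinj, hx, hxR⟩ := hspl
  obtain ⟨σ, hσ⟩ := Pool.Agent.W401.Frob.exists_frob v
  have hchar := h.frob ℓ hv.1.1 hvℓ hσ
  have hzinj : Injective fun i => algebraMap ℚ_[ℓ] (Om ℓ) (x i) :=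
    (algebraMap ℚ_[ℓ] (Om ℓ)).injective.comp hxinj
  have hz : ∀ i, aeval (algebraMap ℚ_[ℓ] (Om ℓ) (x i)) ((P v).map (algebraMap ℚ ℚ_[ℓ])) = 0 :=
    fun i => by rw [aeval_algebraMap_apply, hx, map_zero]
  obtain ⟨f, hf, htan⟩ := exists_log (ρ ℓ) (h.cont ℓ) s σ⁻¹ (by rw [hchar]; exact hv.1.2.2.1.map)
    (by rw [hchar]; exact dist_of_nice hv.1 ℓ) hzinj (fun i => by rw [hchar]; exact hz i)
  have hr : RankR r (relations fun i => algebraMap ℚ_[ℓ] (Om ℓ) (x i)) := by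
    obtain ⟨ι⟩ := emb ℓ
    have hlift : ∀ a, ∃ y : QQ, aeval y (P v) = 0 ∧ ι y = algebraMap ℚ_[ℓ] (Om ℓ) (x a) :=
      fun a => lift_root ℓ ι hv.1.2.1.ne_zero (hz a)
    choose y hy hyz using hlift
    have hyz' : (fun a => ι (y a)) = fun a => algebraMap ℚ_[ℓ] (Om ℓ) (x a) := funext hyz
    have hyinj : Injective y := fun a b hab => hzinj (by
      change algebraMap ℚ_[ℓ] (Om ℓ) (x a) = algebraMap ℚ_[ℓ] (Om ℓ) (x b)
      rw [← hyz, ← hyz, hab])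
    rw [← hyz', mrel_map]
    exact rank_of_indep hv.1.2.1.ne_zero y
      (fun z hz => exhaust hv.1.2.1.ne_zero (h.monic hv.1.1).2 hyinj hy hz)
      (fun a => h.ne_zero hv.1.1 (hy a)) hv.2
  have hGchar : (sumRep (ρ ℓ) (s σ⁻¹)).charpoly = (P v).map (algebraMap ℚ ℚ_[ℓ]) := by
    rw [ZL.sumRep_eq, charpoly_lin, hchar]
  obtain ⟨b, hb⟩ := exists_eigenbasis (sumRep (ρ ℓ) (s σ⁻¹)) x hxinj
    (by rw [finrank_uu, Fintype.card_fin]) (fun i => by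
      rw [Module.End.hasEigenvalue_iff_isRoot_charpoly, hGchar, IsRoot.def, ← coe_aeval_eq_eval]
      exact hx i)
  exact ⟨v, s σ⁻¹, x, b, f, hv, hxinj, hx, hxR, hb, hf, hr, htan⟩

/-- the labels of invariant subspaces are stable under `A` -/
theorem labelsZ (h : Setup K Γ s N wt c r S P ρ 𝔤) (ℓ : ℕ) [Fact ℓ.Prime]
    {R : Set (Fin N → ℤ)} {T : Set (Equiv.Perm (Fin N))} (hT : GeneratesInvariably (relAut R) T)
    (hTA : T ⊆ relAut R) (hloc : ∀ a ∈ T, LocTyp S P r ℓ R a)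
    {v₁ : HeightOneSpectrum (𝓞 K)} {γ₁ : Γ} {x : Fin N → ℚ_[ℓ]}
    {b : Basis (Fin N) ℚ_[ℓ] (∀ _ : Unit, Fin N → ℚ_[ℓ])} {f₁ : ℚ_[ℓ][X]}
    (hs : SplitDat ρ s S P r ℓ R v₁ γ₁ x b f₁) : Labels ρ ℓ b (relAut R) := by
  classical
  intro Δ hΔ W hW
  have hz₁R : relations (fun i => algebraMap ℚ_[ℓ] (Om ℓ) (x i)) = R := by
    rw [mrel_map (algebraMap ℚ_[ℓ] (Om ℓ)) x, hs.rel]
  have hW₁ := hs.log.stab hΔ hW
  refine stable_of_conj (relAut R) hT hTA {i | b i ∈ W} fun a ha => ?_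
  obtain ⟨v, hv, hvℓ, τ, z, hzinj, hz, hzR, hτ⟩ := hloc a ha
  obtain ⟨γ, f, hc, hl, hr⟩ := h.log ℓ hv hvℓ hzinj hz
  have hWa := hl.stab hΔ hW
  obtain ⟨π, hπ, hlab⟩ := hs.log.compare hl (h.motivic ℓ) (h.rank ℓ) hs.rank hr W hW₁ hWa
  have hπA : π ∈ relAut R := by
    intro n
    rw [← hz₁R, ← hπ n, hzR, hz₁R]
  refine ⟨π, hπA, fun i => ?_⟩
  change b ((π⁻¹ * a * π) i) ∈ W ↔ b i ∈ W
  have hπ' : π ((π⁻¹ * a * π) i) = a (π i) := Equiv.apply_symm_apply π (a (π i))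
  rw [mem_iff_root hs hW₁, mem_iff_root hs hW₁]
  rw [← hlab, ← hlab, hπ', ← hτ (π i)]
  have h1 : aeval (τ (z (π i))) f = τ (aeval (z (π i)) f) :=
    Polynomial.aeval_algHom_apply (τ : Om ℓ →ₐ[ℚ_[ℓ]] Om ℓ) (z (π i)) f
  have h2 : ∀ (x : Om ℓ) (Q : ℚ_[ℓ][X]), aeval (τ x) Q = τ (aeval x Q) := fun x Q =>
    Polynomial.aeval_algHom_apply (τ : Om ℓ →ₐ[ℚ_[ℓ]] Om ℓ) x Q
  rw [h1, h2, map_eq_zero_iff _ τ.injective]

/-- the zero-one law -/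
theorem main_sums (h : Setup K Γ s N wt c r S P ρ 𝔤) (hK : HasGoodPrime S P r)
    (R : Set (Fin N → ℤ)) (hR : RankGE r R)
    {J : Type} [Finite J] (T : J → Set (Equiv.Perm (Fin N))) (hne : ∃ j, (T j).Nonempty)
    (hT : GeneratesInvariably (relAut R) (⋃ j, T j)) (hT' : SeparatedModulo (relAut R) T)
    (p : J → ℕ) [∀ j, Fact (p j).Prime] (τ : ∀ j, Gal(PadicAlgCl (p j)/ℚ_[p j]))
    (hτ : ∀ j, ∀ a ∈ T j, ∃ σ : Gal(AlgebraicClosure K/K), HasType (ρ (p j)) (s σ) R (τ j) a)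
    (hend : ∀ (ℓ : ℕ) [Fact ℓ.Prime], orbitCount (relAut R) ≤ commutantDim (𝔤 ℓ)) :
    HasDensityZero {ℓ | ∃ _ : Fact ℓ.Prime, ¬ (Semisimple (ρ ℓ) ∧ TateTensorsOf (ρ ℓ) (𝔤 ℓ))} := by
  classical
  choose σ₀ hσ₀ using fun j => ZL.main_local h R hR (T j) (p j) (τ j) (hτ j)
  have hINT : S_INT := Y484.ZI.t1
  have hCHEB : S_CHEB := Y726.ZI.t1
  have hDENS2 : S_DENS2 := Y681.ZI.t hCHEB
  have hLF : S_LF := Y255.SS.t
  have hCF : S_CF := Y297.SS.t hLF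
  have hLOC : S_LOC := Y708.SS.Loc.t hCF
  have hSPL : S_SPL := Y674.ZS.t
  have htop := ZL.closure_top h hLOC R hne hT hT' σ₀ hσ₀
  have hTA : (⋃ j, T j) ⊆ relAut R := fun a ha => by
    obtain ⟨j, hj⟩ := Set.mem_iUnion.1 ha
    obtain ⟨v, hv, hw⟩ := hσ₀ j a hj
    exact typ_mem_aut hw
  let T' : Set (Equiv.Perm (Fin N)) := ⋃ j, T j
  let _ : Fintype T' := Fintype.ofFinite _
  -- the technical prime
  obtain ⟨p₀, hp₀, hunr, hp₀S, hind₀, v₀, hv₀, hr⟩ : ∃ p : ℕ, p.Prime ∧ UnramifiedIn K p ∧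
      (∀ v, Above v p → v ∉ S) ∧ IndependentPlaces (fun v (_ : Unit) => P v) p ∧
        ∃ v, Above v p ∧ IndepRoots r {P v} := by
    rcases hK with hK | hK
    · obtain ⟨j, a, ha⟩ := hne
      obtain ⟨v, hv, -⟩ := hσ₀ j a ha
      obtain ⟨p, hp, hpv⟩ := exists_prime' v
      exact ⟨p, hp, unramified_one hK hp, fun v' hv' => by
        rw [(above_iff_one hK hp hpv v').1 hv']
        exact hv.1.1, independentPlaces_of_one _ (above_iff_one hK hp hpv), v, hpv, hv.2⟩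
    · exact hK
  -- the bad primes
  have hbad1 : ∀ a : T',
      Pool.Agent.Y142.ZI.DensityZero {ℓ | ∃ _ : Fact ℓ.Prime, ¬ LocTyp S P r ℓ R a} := by
    rintro ⟨a, ha⟩
    obtain ⟨j, hj⟩ := Set.mem_iUnion.1 ha
    obtain ⟨v, hv, hw⟩ := hσ₀ j a hj
    exact ZL.density_typ h hLOC hINT hDENS2 hCF htop R a hv hw
  have hbad2 : Pool.Agent.Y142.ZI.DensityZero
      {ℓ | ∃ _ : Fact ℓ.Prime, ¬ SplTyp (N := N) S P r ℓ R} := by
    obtain ⟨j, a, ha⟩ := hne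
    obtain ⟨v, hv, x, hinj, hx, hR, -⟩ := hσ₀ j a ha
    exact ZL.density_spl h hLOC hINT hDENS2 hSPL htop R hv (w := 1)
      ⟨x, hinj, hx, hR, fun i => rfl⟩
  have hbad3 : ∀ A : Finset T', Pool.Agent.Y142.ZI.DensityZero
      (⋃ a ∈ A, {ℓ | ∃ _ : Fact ℓ.Prime, ¬ LocTyp S P r ℓ R (a : Equiv.Perm (Fin N))}) := by
    intro A
    induction A using Finset.induction_on with
    | empty =>
      simp only [Finset.notMem_empty, Set.iUnion_of_empty, Set.iUnion_empty]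
      exact densityZero_finite Set.finite_empty
    | insert a A _ ih =>
      rw [Finset.set_biUnion_insert]
      exact (hbad1 a).union ih
  refine Y142.ZI.DensityZero.mono (((hbad3 Finset.univ).union hbad2).union
    (densityZero_finite (Set.finite_singleton p₀))) ?_
  rintro ℓ ⟨hp, hno⟩
  by_contra hnot
  rw [Set.mem_union, not_or, Set.mem_union, not_or] at hnot
  obtain ⟨⟨hn1, hn2⟩, hn3⟩ := hnot
  have hloc : ∀ a ∈ T', LocTyp S P r ℓ R a := by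
    intro a ha
    by_contra hcon
    exact hn1 (Set.mem_iUnion₂.2 ⟨⟨a, ha⟩, Finset.mem_univ _, hp, hcon⟩)
  have hspl : SplTyp (N := N) S P r ℓ R := by
    by_contra hcon
    exact hn2 ⟨hp, hcon⟩
  obtain ⟨v₁, γ₁, x, b, f₁, hs⟩ := splitZ h ℓ hspl
  have hlab := labelsZ h ℓ hT hTA hloc hs
  exact hno (full_place s h.cont_s (fun _ => wt) S h.fin (fun v _ => P v) ℓ (ρ ℓ) (h.cont ℓ)
    (fun v hv hvℓ _ => h.good ℓ v hv hvℓ) _ (h.motivic ℓ) r (h.rank ℓ) hp₀ (fun he => hn3 he.symm)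
    hunr hp₀S hind₀ hv₀ (independentRoots_one hr)
    (endos_of_dim (h.motivic ℓ) (fun Δ hΔ => comS_le hs hlab hΔ) (hend ℓ)))

end

end Pool.Agent.R931.PD
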